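import Mathlib
import Pool.Agent.H47.NC.ArchProb

set_option autoImplicit false
open Finset

/-! Quasi-multiplicativity of the one-arm event at a flat piece of the boundary, in a general
environment: the configuration is `ω ∪ W`, where `ω` is a random subset of `E` and the labels of `W`
are open. The flat piece is the image of `{x = 0}` under a lattice symmetry `S`; the half box of
radius `k` at the boundary point `S.g (0, 0)` is `HB S k`. -/

namespace Pool.Agent.H49.Q1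

open Pool.Agent.H75.Perc Pool.Agent.H99.NC Pool.Agent.H47.NC Pool.Agent.H47.NC.ArchAux

/-! ### Inverse symmetries -/

/-- The inverse of a lattice symmetry. -/
def inv (S : Sy) : Sy where
  g := S.g'
  g' := S.g
  G := ⟨S.G', fun a b h => by
    have := congrArg S.G h
    rwa [S.GG', S.GG'] at this⟩
  G' := S.G
  gg' := S.g'g
  g'g := S.gg'
  GG' e := S.G.injective (S.GG' _)
  add u v := by
    apply S.G.injective
    change S.G (S.g' u + S.g' v) = S.G (S.G' (u + v))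
    rw [S.GG', ← S.add, S.gg', S.gg']
  unit u v := by
    have := S.unit (S.g' u) (S.g' v)
    rw [S.gg', S.gg'] at this
    exact this.symm

lemma mem_map_inv (S : Sy) (E : Finset (ℤ × ℤ)) (e : ℤ × ℤ) :
    e ∈ E.map (inv S).G ↔ S.G e ∈ E := (inv S).mem_map E e

lemma map_inv_map (S : Sy) (E : Finset (ℤ × ℤ)) : (E.map (inv S).G).map S.G = E := by
  ext e
  rw [S.mem_map, mem_map_inv, S.GG']

lemma map_map_inv (S : Sy) (E : Finset (ℤ × ℤ)) : (E.map S.G).map (inv S).G = E := by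
  ext e
  rw [mem_map_inv, Finset.mem_map']

lemma Pr_pull (S : Sy) (E : Finset (ℤ × ℤ)) (A : Finset (ℤ × ℤ) → Prop) :
    Pr E A = Pr (E.map (inv S).G) (fun ω => A (ω.map S.G)) :=
  S.Pr (fun e => by rw [mem_map_inv, S.GG']) A

/-! ### Half boxes -/

/-- the labels of the half box of radius `k` -/
noncomputable def HB (S : Sy) (k : ℤ) : Finset (ℤ × ℤ) := (Bx (-k) 0 (-k) k).map S.G

/-- the labels of the full box of radius `k` -/
noncomputable def FB (S : Sy) (k : ℤ) : Finset (ℤ × ℤ) := (Bx (-k) k (-k) k).map S.G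

/-- the vertices of the half box -/
def VB (S : Sy) (k : ℤ) (v : ℤ × ℤ) : Prop := inB (-k) 0 (-k) k (S.g' v)

/-- the vertices of the half box which are not on the outer sides -/
def VI (S : Sy) (k : ℤ) (v : ℤ × ℤ) : Prop := inB (-k + 1) 0 (-k + 1) (k - 1) (S.g' v)

/-- In the full box the environment is contained in the half box and nothing is wired. -/
def Thin (S : Sy) (E W : Finset (ℤ × ℤ)) (k : ℤ) : Prop :=
  ∀ e ∈ FB S k, (e ∈ E → e ∈ HB S k) ∧ e ∉ W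

/-- In the full box the environment is the half box and nothing is wired. -/
def Flat (S : Sy) (E W : Finset (ℤ × ℤ)) (k : ℤ) : Prop := Thin S E W k ∧ HB S k ⊆ E

/-- `x` is connected to the target `J`. -/
def CJ (W : Finset (ℤ × ℤ)) (J : ℤ × ℤ → Prop) (x : ℤ × ℤ) (ω : Finset (ℤ × ℤ)) : Prop :=
  ∃ v, J v ∧ Co (ω ∪ W) x v

lemma CJ_inc (W : Finset (ℤ × ℤ)) (J : ℤ × ℤ → Prop) (x : ℤ × ℤ) : Inc (CJ W J x) := by
  rintro ω ω' h ⟨v, hv, hc⟩
  exact ⟨v, hv, hc.mono (union_subset_union h (subset_refl _))⟩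

lemma CJ_mono {W W' : Finset (ℤ × ℤ)} (h : W ⊆ W') {J : ℤ × ℤ → Prop} {x : ℤ × ℤ}
    {ω : Finset (ℤ × ℤ)} (hc : CJ W J x ω) : CJ W' J x ω := by
  obtain ⟨v, hv, hc⟩ := hc
  exact ⟨v, hv, hc.mono (union_subset_union (subset_refl _) h)⟩

lemma HB_sub_FB (S : Sy) {k : ℤ} (hk : 0 ≤ k) : HB S k ⊆ FB S k :=
  map_subset_map.2 (Bx_sub le_rfl hk le_rfl le_rfl)

lemma HB_mono (S : Sy) {k k' : ℤ} (h : k ≤ k') : HB S k ⊆ HB S k' :=
  map_subset_map.2 (Bx_sub (by omega) le_rfl (by omega) h)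

lemma FB_mono (S : Sy) {k k' : ℤ} (h : k ≤ k') : FB S k ⊆ FB S k' :=
  map_subset_map.2 (Bx_sub (by omega) h (by omega) h)

lemma VB_mono (S : Sy) {k k' : ℤ} (h : k ≤ k') {v : ℤ × ℤ} (hv : VB S k v) : VB S k' v := by
  unfold VB inB at hv ⊢
  omega

lemma mem_HB {S : Sy} {k : ℤ} {e : ℤ × ℤ} : e ∈ HB S k ↔ S.G' e ∈ Bx (-k) 0 (-k) k := S.mem_map _ _

lemma mem_FB {S : Sy} {k : ℤ} {e : ℤ × ℤ} : e ∈ FB S k ↔ S.G' e ∈ Bx (-k) k (-k) k := S.mem_map _ _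

lemma Thin.mono_k {S : Sy} {E W : Finset (ℤ × ℤ)} {k k' : ℤ} (h : k ≤ k') (hT : Thin S E W k') :
    Thin S E W k := by
  intro e he
  obtain ⟨h1, h2⟩ := hT e (FB_mono S h he)
  refine ⟨fun h3 => ?_, h2⟩
  have h4 := h1 h3
  rw [mem_HB, mem_Bx] at h4 ⊢
  rw [mem_FB, mem_Bx] at he
  omega

lemma Flat.mono_k {S : Sy} {E W : Finset (ℤ × ℤ)} {k k' : ℤ} (h : k ≤ k') (hT : Flat S E W k') :
    Flat S E W k := ⟨hT.1.mono_k h, (HB_mono S h).trans hT.2⟩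

lemma Thin.anti {S : Sy} {E E' W W' : Finset (ℤ × ℤ)} {k : ℤ} (hE : E' ⊆ E) (hW : W' ⊆ W)
    (hT : Thin S E W k) : Thin S E' W' k :=
  fun e he => ⟨fun h => (hT e he).1 (hE h), fun h => (hT e he).2 (hW h)⟩

/-! ### Standard position -/

/-- `Thin` in the standard position -/
def Thin0 (E W : Finset (ℤ × ℤ)) (k : ℤ) : Prop :=
  ∀ e ∈ Bx (-k) k (-k) k, (e ∈ E → e ∈ Bx (-k) 0 (-k) k) ∧ e ∉ W

lemma Thin.std {S : Sy} {E W : Finset (ℤ × ℤ)} {k : ℤ} (h : Thin S E W k) :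
    Thin0 (E.map (inv S).G) (W.map (inv S).G) k := by
  intro e he
  have h1 : S.G e ∈ FB S k := by
    unfold FB
    exact (Finset.mem_map' S.G).2 he
  obtain ⟨h2, h3⟩ := h _ h1
  rw [mem_map_inv, mem_map_inv]
  refine ⟨fun h4 => ?_, h3⟩
  exact (Finset.mem_map' S.G).1 (h2 h4)

/-- the path leaves the half box through the outer sides -/
lemma exit_half {E W ω : Finset (ℤ × ℤ)} {k : ℤ} (hT : Thin0 E W k) (hω : ω ⊆ E) {u v : ℤ × ℤ}
    (hu : inB (-k) 0 (-k) k u) (hv : ¬ inB (-k + 1) 0 (-k + 1) (k - 1) v) (h : Co (ω ∪ W) u v) :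
    ∃ z : ℤ × ℤ, (z.1 = -k ∨ z.2 = -k ∨ z.2 = k) ∧ inB (-k) 0 (-k) k z ∧
      Co (ω ∩ Bx (-k) 0 (-k) k) u z := by
  by_cases hu' : inB (-k + 1) 0 (-k + 1) (k - 1) u
  · obtain ⟨w, w', hw, hw', had, hcx, -⟩ := exit_co h hu' hv
    have h5 := unit_cases had.1
    -- inner steps use labels of the half box which are not wired
    have key : ∀ a b : ℤ × ℤ, Ad (ω ∪ W) a b → inB (-k + 1) 0 (-k + 1) (k - 1) a →
        inB (-k) 0 (-k) k b ∧ a + b ∈ ω ∩ Bx (-k) 0 (-k) k := by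
      intro a b hab ha
      have h6 := unit_cases hab.1
      have h7 : a + b ∈ Bx (-k) k (-k) k := by
        rw [mem_Bx]
        unfold inB at ha
        simp only [Prod.fst_add, Prod.snd_add]
        omega
      obtain ⟨h8, h9⟩ := hT _ h7
      have h10 : a + b ∈ ω := (mem_union.1 hab.2).resolve_right h9
      have h11 := h8 (hω h10)
      refine ⟨?_, mem_inter.2 ⟨h10, h11⟩⟩
      rw [mem_Bx] at h11
      simp only [Prod.fst_add, Prod.snd_add] at h11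
      unfold inB at ha ⊢
      omega
    obtain ⟨k1, k2⟩ := key w w' had hw
    refine ⟨w', ?_, k1, ?_⟩
    · unfold inB at hw' k1
      omega
    · refine Relation.ReflTransGen.tail (b := w) ?_ ⟨had.1, k2⟩
      have : ∀ z, CoX (ω ∪ W) (inB (-k + 1) 0 (-k + 1) (k - 1)) u z →
          Co (ω ∩ Bx (-k) 0 (-k) k) u z := by
        intro z hz
        induction hz with
        | refl => exact Co.refl _ _
        | @tail a b hab hbc ih =>
          exact ih.tail ⟨hbc.1.1, (key a b hbc.1 (CoX.mem hab hu')).2⟩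
      exact this w hcx
  · refine ⟨u, ?_, hu, Co.refl _ _⟩
    unfold inB at hu hu'
    omega

/-- last exit from the wired half box -/
lemma last_exit {W ω : Finset (ℤ × ℤ)} {k : ℤ} {x v : ℤ × ℤ} (hx : inB (-k) 0 (-k) k x)
    (h : Co (ω ∪ (W ∪ Bx (-k) 0 (-k) k)) x v) :
    ∃ u, inB (-k) 0 (-k) k u ∧ Co (ω ∪ W) u v := by
  induction h with
  | refl => exact ⟨x, hx, Co.refl _ _⟩
  | @tail a b hab hbc ih =>
    obtain ⟨u, hu, hc⟩ := ih
    by_cases hB : a + b ∈ Bx (-k) 0 (-k) k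
    · refine ⟨b, ?_, Co.refl _ _⟩
      have h1 := unit_cases hbc.1
      rw [mem_Bx] at hB
      simp only [Prod.fst_add, Prod.snd_add] at hB
      unfold inB
      omega
    · refine ⟨u, hu, hc.tail ⟨hbc.1, ?_⟩⟩
      have := hbc.2
      rw [mem_union, mem_union] at this
      rw [mem_union]
      tauto

lemma glue0 {E W ω : Finset (ℤ × ℤ)} {j : ℤ} (hj : 1 ≤ j) (hT : Thin0 E W (4 * j)) (hω : ω ⊆ E)
    (hA : AR 0 0 (4 * j) ω) (hC : Circ j ω) {u v : ℤ × ℤ} (hu : inB (-j) 0 (-j) j u)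
    (hv : ¬ inB (-(4 * j) + 1) 0 (-(4 * j) + 1) (4 * j - 1) v) (h : Co (ω ∪ W) u v) :
    Co (ω ∪ W) (0, 0) v := by
  obtain ⟨⟨⟨p, p', p1, p2, p3, p4⟩, hTT⟩, hBB⟩ := hC
  obtain ⟨z, z1, z2⟩ := hA
  rw [zero_sub, zero_add] at z2
  have k1 : Co (ω ∩ Bx (-(4 * j)) 0 (-(4 * j)) (4 * j)) p (0, 0) :=
    hit hj (by unfold inB; simp only; omega) (by omega) z2 p1 p2 p3 p4 hTT hBB
  obtain ⟨w, w1, w2, w3⟩ := exit_half hT hω (by unfold inB at hu ⊢; omega) hv h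
  have k2 : Co (ω ∩ Bx (-(4 * j)) 0 (-(4 * j)) (4 * j)) p u :=
    hit hj (by unfold inB at hu ⊢; omega) w1 w3 p1 p2 p3 p4 hTT hBB
  exact ((k1.symm.trans k2).mono (inter_subset_left.trans subset_union_left)).trans h

lemma Pr_Circ' {j : ℕ} (hj : 1 ≤ j) {E : Finset (ℤ × ℤ)}
    (hE : Bx (-(4 * j)) 0 (-(4 * j)) (4 * j) ⊆ E) : 1 / 2 ^ 77 ≤ Pr E (Circ j) :=
  le_trans (le_of_eq (by norm_num)) (Pr_Circ hj hE)

/-- lower bound, standard position -/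
lemma qm_lower0 {j : ℕ} (hj : 1 ≤ j) {E W : Finset (ℤ × ℤ)} (hT : Thin0 E W (4 * j))
    (hE : Bx (-(4 * j)) 0 (-(4 * j)) (4 * j) ⊆ E) {J : ℤ × ℤ → Prop}
    (hJ : ∀ v, J v → ¬ inB (-(4 * (j : ℤ)) + 1) 0 (-(4 * j) + 1) (4 * j - 1) v) :
    1 / 2 ^ 77 * (ph (4 * j) * Pr E (CJ (W ∪ Bx (-j) 0 (-j) j) J (0, 0))) ≤
      Pr E (CJ W J (0, 0)) := by
  have e2 : ph (4 * j) = Pr E (AR 0 0 (4 * j)) := by
    rw [Pr_AR ((Bx_sub (by omega) (by omega) (by omega) (by omega)).trans hE)]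
  have h1 := Pr_Circ' hj hE
  have h2 := harris3 E (Circ_inc j) (AR_inc 0 0 (4 * j)) (CJ_inc (W ∪ Bx (-j) 0 (-j) j) J (0, 0))
  have h3 : Pr E (fun ω => Circ j ω ∧ AR 0 0 (4 * j) ω ∧
      CJ (W ∪ Bx (-j) 0 (-j) j) J (0, 0) ω) ≤ Pr E (CJ W J (0, 0)) := by
    apply Pr_mono
    rintro ω hω ⟨g1, g2, v, hv, g3⟩
    obtain ⟨u, hu, g4⟩ := last_exit (k := j) (by unfold inB; simp only; omega) g3
    exact ⟨v, hv, glue0 (by omega) hT hω g2 g1 hu (hJ v hv) g4⟩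
  rw [e2]
  refine le_trans ?_ (h2.trans h3)
  have n1 := Pr_nonneg E (AR 0 0 (4 * j))
  have n2 := Pr_nonneg E (CJ (W ∪ Bx (-j) 0 (-j) j) J (0, 0))
  rw [mul_assoc]
  exact mul_le_mul_of_nonneg_right h1 (mul_nonneg n1 n2)

/-! ### Transport -/

lemma CJ_map (S : Sy) (W : Finset (ℤ × ℤ)) (J : ℤ × ℤ → Prop) (x : ℤ × ℤ) (ω : Finset (ℤ × ℤ)) :
    CJ W J (S.g x) (ω.map S.G) ↔ CJ (W.map (inv S).G) (fun v => J (S.g v)) x ω := by
  have hW : ω.map S.G ∪ W = (ω ∪ W.map (inv S).G).map S.G := by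
    rw [map_union, map_inv_map]
  constructor
  · rintro ⟨v, hv, hc⟩
    refine ⟨S.g' v, by simp only [S.gg']; exact hv, ?_⟩
    rw [← S.co_iff, S.gg', ← hW]
    exact hc
  · rintro ⟨v, hv, hc⟩
    refine ⟨S.g v, hv, ?_⟩
    rw [hW, S.co_iff]
    exact hc

lemma map_union_HB (S : Sy) (W : Finset (ℤ × ℤ)) (k : ℤ) :
    (W ∪ HB S k).map (inv S).G = W.map (inv S).G ∪ Bx (-k) 0 (-k) k := by
  rw [map_union]
  congr 1
  exact map_map_inv S _

/-- The arm at `S.g (0, 0)` inside the half box of radius `k`. -/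
def AS (S : Sy) (k : ℤ) (ω : Finset (ℤ × ℤ)) : Prop :=
  ∃ v, (VB S k v ∧ ¬ VI S k v) ∧ Co (ω ∩ HB S k) (S.g (0, 0)) v

lemma AS_inc (S : Sy) (k : ℤ) : Inc (AS S k) := by
  rintro ω ω' h ⟨v, hv, hc⟩
  exact ⟨v, hv, hc.mono (inter_subset_inter_right h)⟩

lemma AS_map (S : Sy) {k : ℤ} (hk : 0 ≤ k) (ω : Finset (ℤ × ℤ)) :
    AS S k (ω.map S.G) ↔ AR 0 0 k ω := by
  unfold AS AR
  have h1 : ω.map S.G ∩ HB S k = (ω ∩ Bx (-k) 0 (-k) k).map S.G :=
    S.map_inter ω fun e => mem_HB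
  rw [h1, zero_sub, zero_add]
  constructor
  · rintro ⟨v, ⟨h2, h3⟩, h4⟩
    refine ⟨S.g' v, ?_, ?_⟩
    · unfold VB VI inB at *
      omega
    · rw [← S.co_iff, S.gg']
      exact h4
  · rintro ⟨v, h2, h3⟩
    have h4 : inB (-k) 0 (-k) k v := h3.inB inter_subset_right (by unfold inB; simp only; omega)
    refine ⟨S.g v, ⟨?_, ?_⟩, ?_⟩
    · unfold VB; rw [S.g'g]; exact h4
    · unfold VI; rw [S.g'g]; unfold inB; omega
    · rw [S.co_iff]; exact h3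

lemma AS_inter (S : Sy) (k : ℤ) (ω : Finset (ℤ × ℤ)) : AS S k (ω ∩ HB S k) ↔ AS S k ω := by
  unfold AS
  rw [inter_assoc, inter_self]

lemma Pr_AS_HB (S : Sy) {k : ℤ} (hk : 0 ≤ k) : Pr (HB S k) (AS S k) = ph k := by
  rw [Pr_pull S]
  have h1 : (HB S k).map (inv S).G = Bx (-k) 0 (-k) k := map_map_inv S _
  rw [h1, ← Pr_AR (a := 0) (y := 0) (E := Bx (-k) 0 (-k) k)
    (by rw [zero_sub, zero_add])]
  exact Pr_congr fun ω _ => AS_map S hk ω

lemma Pr_AS {S : Sy} {k : ℤ} (hk : 0 ≤ k) {E : Finset (ℤ × ℤ)} (hE : HB S k ⊆ E) :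
    Pr E (AS S k) = ph k := by
  rw [← Pr_AS_HB S hk, ← Pr_restrict hE (AS S k)]
  exact Pr_congr fun ω _ => (AS_inter S k ω).symm

/-- The upper bound for the arm in a thin environment. -/
lemma Pr_AS_le {S : Sy} {k : ℤ} (hk : 0 ≤ k) (E : Finset (ℤ × ℤ)) : Pr E (AS S k) ≤ ph k := by
  have h1 : Pr E (AS S k) ≤ Pr (E ∪ HB S k) (AS S k) := Pr_inc subset_union_left (AS_inc S k)
  rw [Pr_AS hk subset_union_right] at h1
  exact h1

/-- A connection to a target outside of the half box produces the arm. -/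
lemma CJ.arm {S : Sy} {k : ℤ} (hk : 0 ≤ k) {E W : Finset (ℤ × ℤ)} (hT : Thin S E W k)
    {J : ℤ × ℤ → Prop} (hJ : ∀ v, J v → ¬ VI S k v) {ω : Finset (ℤ × ℤ)} (hω : ω ⊆ E)
    (h : CJ W J (S.g (0, 0)) ω) : AS S k ω := by
  have hω' : ω = (ω.map (inv S).G).map S.G := (map_inv_map S ω).symm
  rw [hω', CJ_map] at h
  rw [hω', AS_map S hk]
  obtain ⟨v, hv, hc⟩ := h
  have hv' : ¬ inB (-k + 1) 0 (-k + 1) (k - 1) v := by
    have := hJ _ hv
    unfold VI at this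
    rwa [S.g'g] at this
  obtain ⟨z, z1, z2, z3⟩ := exit_half hT.std (map_subset_map.2 hω)
    (u := (0, 0)) (by unfold inB; simp only; omega) hv' hc
  refine ⟨z, by omega, ?_⟩
  rw [zero_sub, zero_add]
  exact z3

/-- **Quasi-multiplicativity, lower bound.** -/
theorem qm_lower {S : Sy} {j : ℕ} (hj : 1 ≤ j) {E W : Finset (ℤ × ℤ)} (hF : Flat S E W (4 * j))
    {J : ℤ × ℤ → Prop} (hJ : ∀ v, J v → ¬ VI S (4 * j) v) :
    1 / 2 ^ 77 * (ph (4 * j) * Pr E (CJ (W ∪ HB S j) J (S.g (0, 0)))) ≤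
      Pr E (CJ W J (S.g (0, 0))) := by
  have h1 := qm_lower0 hj hF.1.std (J := fun v => J (S.g v)) (by
    intro e he
    rw [mem_map_inv]
    exact hF.2 ((Finset.mem_map' S.G).2 he)) (by
    intro v hv
    have := hJ _ hv
    unfold VI at this
    rwa [S.g'g] at this)
  rw [Pr_pull S E (CJ W J _), Pr_pull S E (CJ (W ∪ HB S j) J _)]
  refine le_trans (le_of_eq ?_) (h1.trans (le_of_eq ?_))
  · congr 2
    apply Pr_congr
    intro ω _
    rw [CJ_map, map_union_HB]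
  · apply Pr_congr
    intro ω _
    rw [CJ_map]

/-- The wired half box makes its labels irrelevant. -/
lemma CJ_sdiff (W B : Finset (ℤ × ℤ)) (J : ℤ × ℤ → Prop) (x : ℤ × ℤ) (ω : Finset (ℤ × ℤ)) :
    CJ (W ∪ B) J x (ω \ B) ↔ CJ (W ∪ B) J x ω := by
  unfold CJ
  have : ω \ B ∪ (W ∪ B) = ω ∪ (W ∪ B) := by
    ext e
    simp only [mem_union, mem_sdiff]
    tauto
  rw [this]

/-- **Quasi-multiplicativity, upper bound.** -/
theorem qm_upper {S : Sy} {k : ℤ} (hk : 0 ≤ k) {E W : Finset (ℤ × ℤ)} (hT : Thin S E W k)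
    {J : ℤ × ℤ → Prop} (hJ : ∀ v, J v → ¬ VI S k v) :
    Pr E (CJ W J (S.g (0, 0))) ≤
      ph k * Pr (E \ HB S k) (CJ (W ∪ HB S k) J (S.g (0, 0))) := by
  have h1 : Pr E (CJ W J (S.g (0, 0))) ≤
      Pr E (fun ω => AS S k (ω ∩ (E ∩ HB S k)) ∧
        CJ (W ∪ HB S k) J (S.g (0, 0)) (ω \ (E ∩ HB S k))) := by
    apply Pr_mono
    intro ω hω h
    have e1 : ω ∩ (E ∩ HB S k) = ω ∩ HB S k := by
      rw [← inter_assoc, inter_eq_left.2 hω]
    have e2 : ω \ (E ∩ HB S k) = ω \ HB S k := by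
      ext e
      simp only [mem_sdiff, mem_inter]
      constructor
      · rintro ⟨h1, h2⟩
        exact ⟨h1, fun h3 => h2 ⟨hω h1, h3⟩⟩
      · rintro ⟨h1, h2⟩
        exact ⟨h1, fun h3 => h2 h3.2⟩
    rw [e1, e2, AS_inter, CJ_sdiff]
    exact ⟨h.arm hk hT hJ hω, CJ_mono subset_union_left h⟩
  rw [Pr_split inter_subset_left (AS S k) (CJ (W ∪ HB S k) J (S.g (0, 0)))] at h1
  have e3 : E \ (E ∩ HB S k) = E \ HB S k := by
    ext e
    simp only [mem_sdiff, mem_inter]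
    tauto
  rw [e3] at h1
  exact h1.trans (mul_le_mul_of_nonneg_right (Pr_AS_le hk _) (Pr_nonneg _ _))

lemma Pr_wired (S : Sy) (k : ℤ) (E W : Finset (ℤ × ℤ)) (J : ℤ × ℤ → Prop) (x : ℤ × ℤ) :
    Pr (E \ HB S k) (CJ (W ∪ HB S k) J x) = Pr E (CJ (W ∪ HB S k) J x) := by
  rw [← Pr_restrict sdiff_subset (CJ (W ∪ HB S k) J x)]
  apply Pr_congr
  intro ω hω
  have : ω ∩ (E \ HB S k) = ω \ HB S k := by
    ext e
    simp only [mem_sdiff, mem_inter]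
    constructor
    · rintro ⟨h1, h2, h3⟩; exact ⟨h1, h3⟩
    · rintro ⟨h1, h2⟩; exact ⟨h1, hω h1, h2⟩
  rw [this, CJ_sdiff]

end Pool.Agent.H49.Q1
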