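import Mathlib
import Pool.Agent.H49.Q1.Flat

set_option autoImplicit false
open Finset

/-! The `k`-point bound: the connection of many boundary points to targets costs the product of the
one-arm probabilities of disjoint half boxes. -/

namespace Pool.Agent.H49.Q1

open Pool.Agent.H75.Perc Pool.Agent.H99.NC Pool.Agent.H47.NC Pool.Agent.H47.NC.ArchAux

/-- Independence of the trace on `F` and outside of `F`. -/
lemma Pr_split' (E F : Finset (ℤ × ℤ)) (A B : Finset (ℤ × ℤ) → Prop) :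
    Pr E (fun ω => A (ω ∩ F) ∧ B (ω \ F)) = Pr (E ∩ F) A * Pr (E \ F) B := by
  have h := Pr_split (E := E) (E1 := E ∩ F) inter_subset_left A B
  have e3 : E \ (E ∩ F) = E \ F := by
    ext e
    simp only [mem_sdiff, mem_inter]
    tauto
  rw [e3] at h
  rw [← h]
  apply Pr_congr
  intro ω hω
  have e1 : ω ∩ (E ∩ F) = ω ∩ F := by
    rw [← inter_assoc, inter_eq_left.2 hω]
  have e2 : ω \ (E ∩ F) = ω \ F := by
    ext e
    simp only [mem_sdiff, mem_inter]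
    constructor
    · rintro ⟨h1, h2⟩
      exact ⟨h1, fun h3 => h2 ⟨hω h1, h3⟩⟩
    · rintro ⟨h1, h2⟩
      exact ⟨h1, fun h3 => h2 h3.2⟩
  rw [e1, e2]

/-- Product bound for events in disjoint sets of labels. -/
lemma Pr_prod_le {ι : Type*} [DecidableEq ι] (s : Finset ι) (F : ι → Finset (ℤ × ℤ))
    (hd : ∀ i ∈ s, ∀ j ∈ s, i ≠ j → Disjoint (F i) (F j)) (A : ι → Finset (ℤ × ℤ) → Prop)
    (p : ι → ℝ) (hp : ∀ i ∈ s, ∀ E : Finset (ℤ × ℤ), Pr E (A i) ≤ p i)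
    (B : Finset (ℤ × ℤ) → Prop) (E : Finset (ℤ × ℤ)) :
    Pr E (fun ω => (∀ i ∈ s, A i (ω ∩ F i)) ∧ B (ω \ s.biUnion F)) ≤
      (∏ i ∈ s, p i) * Pr (E \ s.biUnion F) B := by
  induction s using Finset.induction_on generalizing E with
  | empty => simp
  | insert a s ha ih =>
    have hp0 : ∀ i ∈ insert a s, 0 ≤ p i := fun i hi => (Pr_nonneg ∅ (A i)).trans (hp i hi ∅)
    have ih' := ih (fun i hi j hj => hd i (mem_insert_of_mem hi) j (mem_insert_of_mem hj))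
      (fun i hi => hp i (mem_insert_of_mem hi)) (E \ F a)
    have h1 : Pr E (fun ω => (∀ i ∈ insert a s, A i (ω ∩ F i)) ∧
        B (ω \ (insert a s).biUnion F)) = Pr E (fun ω => A a (ω ∩ F a) ∧
        (fun η => (∀ i ∈ s, A i (η ∩ F i)) ∧ B (η \ s.biUnion F)) (ω \ F a)) := by
      apply Pr_congr
      intro ω _
      have e1 : ω \ (insert a s).biUnion F = (ω \ F a) \ s.biUnion F := by
        rw [biUnion_insert]
        ext e
        simp only [mem_sdiff, mem_union]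
        tauto
      have e2 : ∀ i ∈ s, (ω \ F a) ∩ F i = ω ∩ F i := by
        intro i hi
        have hne : a ≠ i := fun h => ha (h ▸ hi)
        have h3 := hd a (mem_insert_self a s) i (mem_insert_of_mem hi) hne
        ext e
        simp only [mem_sdiff, mem_inter]
        constructor
        · rintro ⟨⟨h4, _⟩, h5⟩; exact ⟨h4, h5⟩
        · rintro ⟨h4, h5⟩
          exact ⟨⟨h4, fun h6 => (disjoint_left.1 h3) h6 h5⟩, h5⟩
      rw [e1]
      simp only [forall_mem_insert]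
      constructor
      · rintro ⟨⟨h4, h5⟩, h6⟩
        exact ⟨h4, fun i hi => by rw [e2 i hi]; exact h5 i hi, h6⟩
      · rintro ⟨h4, h5, h6⟩
        exact ⟨⟨h4, fun i hi => by rw [← e2 i hi]; exact h5 i hi⟩, h6⟩
    have e3 : E \ (insert a s).biUnion F = (E \ F a) \ s.biUnion F := by
      rw [biUnion_insert]
      ext e
      simp only [mem_sdiff, mem_union]
      tauto
    rw [h1, Pr_split' E (F a) (A a) (fun η => (∀ i ∈ s, A i (η ∩ F i)) ∧ B (η \ s.biUnion F)),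
      prod_insert ha, e3, mul_assoc]
    exact mul_le_mul (hp a (mem_insert_self a s) _) ih' (Pr_nonneg _ _) (hp0 a (mem_insert_self a s))

/-- the union of the half boxes -/
noncomputable def UB {ι : Type*} (s : Finset ι) (S : ι → Sy) (k : ι → ℤ) : Finset (ℤ × ℤ) :=
  by classical exact s.biUnion (fun i => HB (S i) (k i))

lemma mem_UB {ι : Type*} {s : Finset ι} {S : ι → Sy} {k : ι → ℤ} {e : ℤ × ℤ} :
    e ∈ UB s S k ↔ ∃ i ∈ s, e ∈ HB (S i) (k i) := by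
  unfold UB
  rw [mem_biUnion]

/-- **The `k`-point bound.** The points `(S i).g (0, 0)` are connected to the targets `J i` outside of
the half boxes; the half boxes are disjoint. -/
theorem kpoint_upper {ι : Type*} (s : Finset ι) (S : ι → Sy) (k : ι → ℤ) (hk : ∀ i ∈ s, 0 ≤ k i)
    {E W : Finset (ℤ × ℤ)} (hT : ∀ i ∈ s, Thin (S i) E W (k i))
    (hd : ∀ i ∈ s, ∀ j ∈ s, i ≠ j → Disjoint (HB (S i) (k i)) (HB (S j) (k j)))
    (J : ι → ℤ × ℤ → Prop) (hJ : ∀ i ∈ s, ∀ v, J i v → ¬ VI (S i) (k i) v) :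
    Pr E (fun ω => ∀ i ∈ s, CJ W (J i) ((S i).g (0, 0)) ω) ≤
      (∏ i ∈ s, ph (k i)) * Pr (E \ UB s S k)
        (fun ω => ∀ i ∈ s, CJ (W ∪ UB s S k) (J i) ((S i).g (0, 0)) ω) := by
  classical
  have h1 := Pr_prod_le s (fun i => HB (S i) (k i)) hd (fun i => AS (S i) (k i))
    (fun i => ph (k i)) (fun i hi E => Pr_AS_le (hk i hi) E)
    (fun ω => ∀ i ∈ s, CJ (W ∪ UB s S k) (J i) ((S i).g (0, 0)) ω) E
  have hU : s.biUnion (fun i => HB (S i) (k i)) = UB s S k := by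
    ext e
    rw [mem_UB, mem_biUnion]
  rw [hU] at h1
  refine le_trans (Pr_mono ?_) h1
  intro ω hω h
  refine ⟨fun i hi => ?_, fun i hi => ?_⟩
  · rw [AS_inter]
    exact (h i hi).arm (hk i hi) (hT i hi) (hJ i hi) hω
  · rw [CJ_sdiff]
    exact CJ_mono subset_union_left (h i hi)

/-- The `k`-point bound without the connections outside. -/
theorem kpoint_le {ι : Type*} (s : Finset ι) (S : ι → Sy) (k : ι → ℤ) (hk : ∀ i ∈ s, 0 ≤ k i)
    {E W : Finset (ℤ × ℤ)} (hT : ∀ i ∈ s, Thin (S i) E W (k i))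
    (hd : ∀ i ∈ s, ∀ j ∈ s, i ≠ j → Disjoint (HB (S i) (k i)) (HB (S j) (k j)))
    (J : ι → ℤ × ℤ → Prop) (hJ : ∀ i ∈ s, ∀ v, J i v → ¬ VI (S i) (k i) v) :
    Pr E (fun ω => ∀ i ∈ s, CJ W (J i) ((S i).g (0, 0)) ω) ≤ ∏ i ∈ s, ph (k i) := by
  refine (kpoint_upper s S k hk hT hd J hJ).trans ?_
  have h0 : 0 ≤ ∏ i ∈ s, ph (k i) := prod_nonneg fun i _ => Pr_nonneg _ _
  calc _ ≤ (∏ i ∈ s, ph (k i)) * 1 := mul_le_mul_of_nonneg_left (Pr_le_one _ _) h0
    _ = _ := mul_one _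

/-- upper bound for the boundary one-arm probability, for all radii -/
theorem ph_upper : ∃ C : ℝ, 1 ≤ C ∧ ∀ k : ℤ, 1 ≤ k → ph k ≤ C * (k : ℝ) ^ (-(1 / 3) : ℝ) := by
  obtain ⟨c, C, hc, hC, h⟩ := PB_ph
  refine ⟨max C 1, le_max_right _ _, fun k hk => ?_⟩
  obtain ⟨n, rfl⟩ : ∃ n : ℕ, k = n := ⟨k.toNat, by omega⟩
  have h1 := (h n (by omega)).2
  refine h1.trans ?_
  push_cast
  exact mul_le_mul_of_nonneg_right (le_max_left _ _) (by positivity)

/-- lower bound for the boundary one-arm probability, for all radii -/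
theorem ph_lower : ∃ c : ℝ, 0 < c ∧ c ≤ 1 ∧ ∀ k : ℤ, 1 ≤ k → c * (k : ℝ) ^ (-(1 / 3) : ℝ) ≤ ph k := by
  obtain ⟨c, C, hc, hC, h⟩ := PB_ph
  refine ⟨min c 1, lt_min hc one_pos, min_le_right _ _, fun k hk => ?_⟩
  obtain ⟨n, rfl⟩ : ∃ n : ℕ, k = n := ⟨k.toNat, by omega⟩
  have h1 := (h n (by omega)).1
  refine le_trans ?_ h1
  push_cast
  exact mul_le_mul_of_nonneg_right (min_le_left _ _) (by positivity)

/-- The `k`-point bound with powers. -/
theorem kpoint_pow : ∃ C : ℝ, 1 ≤ C ∧ ∀ {ι : Type} (s : Finset ι) (S : ι → Sy) (k : ι → ℤ)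
    (_ : ∀ i ∈ s, 1 ≤ k i) {E W : Finset (ℤ × ℤ)} (_ : ∀ i ∈ s, Thin (S i) E W (k i))
    (_ : ∀ i ∈ s, ∀ j ∈ s, i ≠ j → Disjoint (HB (S i) (k i)) (HB (S j) (k j)))
    (J : ι → ℤ × ℤ → Prop) (_ : ∀ i ∈ s, ∀ v, J i v → ¬ VI (S i) (k i) v),
    Pr E (fun ω => ∀ i ∈ s, CJ W (J i) ((S i).g (0, 0)) ω) ≤
      ∏ i ∈ s, (C * (k i : ℝ) ^ (-(1 / 3) : ℝ)) := by
  obtain ⟨C, hC, h⟩ := ph_upper
  refine ⟨C, hC, fun {ι} s S k hk {E W} hT hd J hJ => ?_⟩
  refine (kpoint_le s S k (fun i hi => by have := hk i hi; omega) hT hd J hJ).trans ?_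
  exact prod_le_prod (fun i _ => Pr_nonneg _ _) fun i hi => h _ (hk i hi)

end Pool.Agent.H49.Q1
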