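import Mathlib
import Pool.Agent.H49.Q1.KPoint

set_option autoImplicit false
open Finset

/-! Harnack inequality for the connection of points of a flat piece of the boundary to a distant
target, and the four orientations of a flat piece. -/

namespace Pool.Agent.H49.Q1

open Pool.Agent.H75.Perc Pool.Agent.H99.NC Pool.Agent.H47.NC Pool.Agent.H47.NC.ArchAux

/-! ### Rectangles are connected -/

lemma row_conn {a b c d : ℤ} {x y : ℤ} (hy : c ≤ y ∧ y ≤ d) (n : ℕ) (h1 : a ≤ x) (h2 : x + n ≤ b) :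
    Co (Bx a b c d) (x, y) (x + n, y) := by
  induction n with
  | zero => simpa using Co.refl _ _
  | succ n ih =>
    push_cast at h2
    have h3 : IsUnit4 (((x + ((n + 1 : ℕ) : ℤ), y) : ℤ × ℤ) - (x + (n : ℤ), y)) := by
      unfold IsUnit4
      simp only [Prod.ext_iff, Prod.fst_sub, Prod.snd_sub]
      push_cast
      omega
    refine (ih (by omega)).tail ⟨h3, add_mem_Bx h3 ?_ ?_⟩
    · unfold inB; simp only; omega
    · unfold inB; simp only; push_cast; omega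

lemma col_conn {a b c d : ℤ} {x y : ℤ} (hx : a ≤ x ∧ x ≤ b) (n : ℕ) (h1 : c ≤ y) (h2 : y + n ≤ d) :
    Co (Bx a b c d) (x, y) (x, y + n) := by
  induction n with
  | zero => simpa using Co.refl _ _
  | succ n ih =>
    push_cast at h2
    have h3 : IsUnit4 (((x, y + ((n + 1 : ℕ) : ℤ)) : ℤ × ℤ) - (x, y + (n : ℤ))) := by
      unfold IsUnit4
      simp only [Prod.ext_iff, Prod.fst_sub, Prod.snd_sub]
      push_cast
      omega
    refine (ih (by omega)).tail ⟨h3, add_mem_Bx h3 ?_ ?_⟩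
    · unfold inB; simp only; omega
    · unfold inB; simp only; push_cast; omega

/-- Rectangles are connected. -/
theorem Bx_conn {a b c d : ℤ} {u v : ℤ × ℤ} (hu : inB a b c d u) (hv : inB a b c d v) :
    Co (Bx a b c d) u v := by
  have h1 : Co (Bx a b c d) u (a, u.2) := by
    obtain ⟨n, hn⟩ : ∃ n : ℕ, u.1 = a + n := ⟨(u.1 - a).toNat, by unfold inB at hu; omega⟩
    have := row_conn (a := a) (b := b) (c := c) (d := d) (x := a) (y := u.2) hu.2 n le_rfl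
      (by unfold inB at hu; omega)
    rw [← hn] at this
    exact this.symm
  have h2 : Co (Bx a b c d) v (a, v.2) := by
    obtain ⟨n, hn⟩ : ∃ n : ℕ, v.1 = a + n := ⟨(v.1 - a).toNat, by unfold inB at hv; omega⟩
    have := row_conn (a := a) (b := b) (c := c) (d := d) (x := a) (y := v.2) hv.2 n le_rfl
      (by unfold inB at hv; omega)
    rw [← hn] at this
    exact this.symm
  have hab : a ≤ a ∧ a ≤ b := by unfold inB at hu; omega
  have h3 : Co (Bx a b c d) (a, c) (a, u.2) := by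
    obtain ⟨n, hn⟩ : ∃ n : ℕ, u.2 = c + n := ⟨(u.2 - c).toNat, by unfold inB at hu; omega⟩
    have := col_conn (a := a) (b := b) (c := c) (d := d) (x := a) (y := c) hab n le_rfl
      (by unfold inB at hu; omega)
    rwa [← hn] at this
  have h4 : Co (Bx a b c d) (a, c) (a, v.2) := by
    obtain ⟨n, hn⟩ : ∃ n : ℕ, v.2 = c + n := ⟨(v.2 - c).toNat, by unfold inB at hv; omega⟩
    have := col_conn (a := a) (b := b) (c := c) (d := d) (x := a) (y := c) hab n le_rfl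
      (by unfold inB at hv; omega)
    rwa [← hn] at this
  exact ((h1.trans h3.symm).trans h4).trans h2.symm

lemma HB_conn {S : Sy} {k : ℤ} {u v : ℤ × ℤ} (hu : VB S k u) (hv : VB S k v) :
    Co (HB S k) u v := by
  have h := Bx_conn hu hv
  rw [← S.co_iff, S.gg', S.gg'] at h
  exact h

lemma VB_center (S : Sy) {k : ℤ} (hk : 0 ≤ k) : VB S k (S.g (0, 0)) := by
  unfold VB
  rw [S.g'g]
  unfold inB
  simp only
  omega

/-- Enlarging the wired half box. -/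
lemma CJ_wire {S S' : Sy} {k j : ℤ} (hj : 0 ≤ j) (hs : HB S k ⊆ HB S' j)
    {x : ℤ × ℤ} (hx : VB S' j x) {W : Finset (ℤ × ℤ)} {J : ℤ × ℤ → Prop} {ω : Finset (ℤ × ℤ)}
    (h : CJ (W ∪ HB S k) J x ω) : CJ (W ∪ HB S' j) J (S'.g (0, 0)) ω := by
  obtain ⟨v, hv, hc⟩ := h
  refine ⟨v, hv, ?_⟩
  have h1 : Co (ω ∪ (W ∪ HB S' j)) (S'.g (0, 0)) x :=
    (HB_conn (VB_center S' hj) hx).mono (subset_union_right.trans subset_union_right)
  exact h1.trans (hc.mono (union_subset_union (subset_refl _)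
    (union_subset_union (subset_refl _) hs)))

/-- Ratio of one-arm probabilities at comparable radii. -/
theorem ph_ratio (m : ℕ) : ∃ C : ℝ, 1 ≤ C ∧ ∀ k K : ℤ, 1 ≤ k → 1 ≤ K → K ≤ m * k →
    ph k ≤ C * ph K := by
  obtain ⟨C, hC, h1⟩ := ph_upper
  obtain ⟨c, hc, hc1, h2⟩ := ph_lower
  refine ⟨C / c * (m + 1 : ℝ) ^ (1 / 3 : ℝ), ?_, fun k K hk hK hm => ?_⟩
  · have h3 : 1 ≤ C / c := by rw [le_div_iff₀ hc]; linarith
    have h4 : (1 : ℝ) ≤ (m + 1 : ℝ) ^ (1 / 3 : ℝ) :=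
      Real.one_le_rpow (by have : (0 : ℝ) ≤ m := by positivity
                           linarith) (by norm_num)
    nlinarith
  · have hk' : (1 : ℝ) ≤ k := by exact_mod_cast hk
    have hK' : (1 : ℝ) ≤ K := by exact_mod_cast hK
    have hm' : (K : ℝ) ≤ m * k := by exact_mod_cast hm
    have hm0 : (0 : ℝ) ≤ m := by positivity
    have h3 : (k : ℝ) ^ (-(1 / 3) : ℝ) ≤ (m + 1 : ℝ) ^ (1 / 3 : ℝ) * (K : ℝ) ^ (-(1 / 3) : ℝ) := by
      have h4 : (K : ℝ) ≤ (m + 1) * k := by nlinarith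
      have h5 : (K : ℝ) ^ (1 / 3 : ℝ) ≤ ((m + 1) * k : ℝ) ^ (1 / 3 : ℝ) :=
        Real.rpow_le_rpow (by linarith) h4 (by norm_num)
      rw [Real.mul_rpow (by linarith) (by linarith)] at h5
      rw [Real.rpow_neg (by linarith), Real.rpow_neg (by linarith)]
      have h6 : 0 < (k : ℝ) ^ (1 / 3 : ℝ) := Real.rpow_pos_of_pos (by linarith) _
      have h7 : 0 < (K : ℝ) ^ (1 / 3 : ℝ) := Real.rpow_pos_of_pos (by linarith) _
      rw [← div_eq_mul_inv, inv_eq_one_div, div_le_div_iff₀ h6 h7]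
      linarith
    have h4 := h1 k hk
    have h5 := h2 K hK
    have h6 : 0 ≤ (m + 1 : ℝ) ^ (1 / 3 : ℝ) := by positivity
    calc ph k ≤ C * (k : ℝ) ^ (-(1 / 3) : ℝ) := h4
      _ ≤ C * ((m + 1 : ℝ) ^ (1 / 3 : ℝ) * (K : ℝ) ^ (-(1 / 3) : ℝ)) :=
        mul_le_mul_of_nonneg_left h3 (by linarith)
      _ = C / c * (m + 1 : ℝ) ^ (1 / 3 : ℝ) * (c * (K : ℝ) ^ (-(1 / 3) : ℝ)) := by
        field_simp
      _ ≤ C / c * (m + 1 : ℝ) ^ (1 / 3 : ℝ) * ph K :=
        mul_le_mul_of_nonneg_left h5 (by positivity)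

/-- **Quasi-multiplicativity** with one radius. -/
theorem qm_lower' : ∃ c : ℝ, 0 < c ∧ ∀ {S : Sy} {j : ℕ} (_ : 1 ≤ j) {E W : Finset (ℤ × ℤ)}
    (_ : Flat S E W (4 * j)) {J : ℤ × ℤ → Prop} (_ : ∀ v, J v → ¬ VI S (4 * j) v),
    c * (ph j * Pr E (CJ (W ∪ HB S j) J (S.g (0, 0)))) ≤ Pr E (CJ W J (S.g (0, 0))) := by
  obtain ⟨C, hC, h⟩ := ph_ratio 4
  refine ⟨1 / 2 ^ 77 * (1 / C), by positivity, fun {S j} hj {E W} hF {J} hJ => ?_⟩
  refine le_trans ?_ (qm_lower hj hF hJ)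
  have h1 := h j (4 * j) (by omega) (by omega) le_rfl
  have h2 := Pr_nonneg E (CJ (W ∪ HB S j) J (S.g (0, 0)))
  have h3 : 1 / C * ph j ≤ ph (4 * j) := by
    rw [one_div, inv_mul_le_iff₀ (by linarith)]
    exact h1
  calc _ = 1 / 2 ^ 77 * ((1 / C * ph j) * Pr E (CJ (W ∪ HB S j) J (S.g (0, 0)))) := by ring
    _ ≤ _ := mul_le_mul_of_nonneg_left (mul_le_mul_of_nonneg_right h3 h2) (by positivity)

/-- **Harnack inequality**, general form: the half box of radius `k` at the point of `S` is contained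
in the half box of radius `j` at the point of `S'`, around which the boundary is flat. -/
theorem harnack_gen (m : ℕ) : ∃ C : ℝ, 1 ≤ C ∧ ∀ {S S' : Sy} {k : ℤ} {j : ℕ} (_ : 1 ≤ k)
    (_ : 1 ≤ j) (_ : (j : ℤ) ≤ m * k) {E W : Finset (ℤ × ℤ)} (_ : Thin S E W k)
    (_ : Flat S' E W (4 * j)) (_ : HB S k ⊆ HB S' j) (_ : VB S' j (S.g (0, 0)))
    {J : ℤ × ℤ → Prop} (_ : ∀ v, J v → ¬ VI S k v) (_ : ∀ v, J v → ¬ VI S' (4 * j) v),
    Pr E (CJ W J (S.g (0, 0))) ≤ C * Pr E (CJ W J (S'.g (0, 0))) := by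
  obtain ⟨C, hC, h⟩ := ph_ratio m
  obtain ⟨c, hc, h'⟩ := qm_lower'
  refine ⟨max 1 (C / c), le_max_left _ _, ?_⟩
  intro S S' k j hk hj hm E W hT hF hs hx J hJ hJ'
  have h1 := qm_upper (by omega) hT hJ
  rw [Pr_wired] at h1
  have h2 : Pr E (CJ (W ∪ HB S k) J (S.g (0, 0))) ≤
      Pr E (CJ (W ∪ HB S' j) J (S'.g (0, 0))) :=
    Pr_mono fun ω _ h3 => CJ_wire (by omega) hs hx h3
  have h3 := h' hj hF hJ'
  have h4 := h k j hk (by omega) hm
  have n1 := Pr_nonneg E (CJ (W ∪ HB S' j) J (S'.g (0, 0)))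
  have n2 := Pr_nonneg E (CJ W J (S'.g (0, 0)))
  have n3 : 0 ≤ ph k := Pr_nonneg _ _
  calc Pr E (CJ W J (S.g (0, 0))) ≤ ph k * Pr E (CJ (W ∪ HB S k) J (S.g (0, 0))) := h1
    _ ≤ (C * ph j) * Pr E (CJ (W ∪ HB S' j) J (S'.g (0, 0))) :=
      mul_le_mul h4 h2 (Pr_nonneg _ _) (n3.trans h4)
    _ = C / c * (c * (ph j * Pr E (CJ (W ∪ HB S' j) J (S'.g (0, 0))))) := by
      field_simp
    _ ≤ C / c * Pr E (CJ W J (S'.g (0, 0))) := mul_le_mul_of_nonneg_left h3 (by positivity)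
    _ ≤ _ := mul_le_mul_of_nonneg_right (le_max_right _ _) n2

/-! ### Composition of symmetries -/

/-- composition -/
def comp (S T : Sy) : Sy where
  g u := S.g (T.g u)
  g' u := T.g' (S.g' u)
  G := T.G.trans S.G
  G' e := T.G' (S.G' e)
  gg' u := by rw [T.gg', S.gg']
  g'g u := by rw [S.g'g, T.g'g]
  GG' e := by
    change S.G (T.G (T.G' (S.G' e))) = e
    rw [T.GG', S.GG']
  add u v := by
    change S.g (T.g u) + S.g (T.g v) = S.G (T.G (u + v))
    rw [S.add, T.add]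
  unit u v := by rw [T.unit, S.unit]

/-- the symmetry `S` moved by `y` along the flat side -/
def slide (S : Sy) (y : ℤ) : Sy := comp S (syT (0, y))

lemma slide_g (S : Sy) (y : ℤ) : (slide S y).g (0, 0) = S.g (0, y) := by
  unfold slide comp syT
  simp

lemma slide_HB {S : Sy} {y k j : ℤ} (h : |y| + k ≤ j) : HB (slide S y) k ⊆ HB S j := by
  intro e he
  rw [mem_HB, mem_Bx] at he ⊢
  simp only [slide, comp, syT] at he
  have := abs_le.1 (le_of_eq (rfl : |y| = |y|))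
  omega

lemma slide_FB {S : Sy} {y k j : ℤ} (h : |y| + k ≤ j) : FB (slide S y) k ⊆ FB S j := by
  intro e he
  rw [mem_FB, mem_Bx] at he ⊢
  simp only [slide, comp, syT] at he
  have := abs_le.1 (le_of_eq (rfl : |y| = |y|))
  omega

lemma slide_Thin {S : Sy} {y k j : ℤ} (h : |y| + k ≤ j) {E W : Finset (ℤ × ℤ)}
    (hT : Thin S E W j) : Thin (slide S y) E W k := by
  intro e he
  obtain ⟨h1, h2⟩ := hT e (slide_FB h he)
  refine ⟨fun h3 => ?_, h2⟩
  have h4 := h1 h3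
  rw [mem_HB, mem_Bx] at h4 ⊢
  rw [mem_FB, mem_Bx] at he
  simp only [slide, comp, syT] at he ⊢
  omega

lemma slide_Flat {S : Sy} {y k j : ℤ} (h : |y| + k ≤ j) {E W : Finset (ℤ × ℤ)}
    (hT : Flat S E W j) : Flat (slide S y) E W k :=
  ⟨slide_Thin h hT.1, (slide_HB h).trans hT.2⟩

lemma slide_VI {S : Sy} {y k j : ℤ} (h : |y| + k ≤ j) {v : ℤ × ℤ} (hv : VI (slide S y) k v) :
    VI S j v := by
  unfold VI inB at *
  simp only [slide, comp, syT, Prod.fst_sub, Prod.snd_sub] at hv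
  have := abs_le.1 (le_of_eq (rfl : |y| = |y|))
  omega

/-- **Harnack inequality** for two points of a flat side. -/
theorem harnack : ∃ C : ℝ, 1 ≤ C ∧ ∀ {S : Sy} {j : ℕ} {y : ℤ} (_ : 1 ≤ j) (_ : |y| ≤ j)
    {E W : Finset (ℤ × ℤ)} (_ : Flat S E W (8 * j)) {J : ℤ × ℤ → Prop}
    (_ : ∀ v, J v → ¬ VI S (8 * j) v),
    Pr E (CJ W J (S.g (0, y))) ≤ C * Pr E (CJ W J (S.g (0, 0))) := by
  obtain ⟨C, hC, h⟩ := harnack_gen 2
  refine ⟨C, hC, fun {S j y} hj hy {E W} hF {J} hJ => ?_⟩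
  have h1 := h (S := slide S y) (S' := S) (k := j) (j := 2 * j) (by omega) (by omega)
    (by push_cast; omega) (E := E) (W := W) (slide_Thin (by omega) hF.1)
    (by push_cast; rw [show (4 : ℤ) * (2 * j) = 8 * j by ring]; exact hF)
    (slide_HB (by push_cast; omega)) (by
      rw [slide_g]
      unfold VB inB
      rw [S.g'g]
      simp only
      push_cast
      have := abs_le.1 hy
      exact ⟨⟨by omega, trivial⟩, by omega, by omega⟩)
    (J := J) (fun v hv hv' => hJ v hv (slide_VI (by omega) hv'))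
    (by
      intro v hv
      push_cast
      rw [show (4 : ℤ) * (2 * j) = 8 * j by ring]
      exact hJ v hv)
  rwa [slide_g] at h1

/-- **Harnack inequality** for two points of a flat side, other direction. -/
theorem harnack' : ∃ C : ℝ, 1 ≤ C ∧ ∀ {S : Sy} {j : ℕ} {y : ℤ} (_ : 1 ≤ j) (_ : |y| ≤ j)
    {E W : Finset (ℤ × ℤ)} (_ : Flat S E W (9 * j)) {J : ℤ × ℤ → Prop}
    (_ : ∀ v, J v → ¬ VI S (9 * j) v),
    Pr E (CJ W J (S.g (0, 0))) ≤ C * Pr E (CJ W J (S.g (0, y))) := by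
  obtain ⟨C, hC, h⟩ := harnack
  refine ⟨C, hC, fun {S j y} hj hy {E W} hF {J} hJ => ?_⟩
  have h1 := h (S := slide S y) (j := j) (y := -y) hj (by rwa [abs_neg]) (E := E) (W := W)
    (slide_Flat (by omega) hF) (J := J) (fun v hv hv' => hJ v hv (slide_VI (by omega) hv'))
  rw [slide_g] at h1
  have h2 : (slide S y).g (0, -y) = S.g (0, 0) := by
    unfold slide comp syT
    simp
  rwa [h2] at h1

/-! ### The four orientations -/

/-- the domain is on the left of the wall through `x` -/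
def sR (x : ℤ × ℤ) : Sy := syT x

/-- the domain is on the right of the wall through `x` -/
def sL (x : ℤ × ℤ) : Sy := comp (syT x) (syX 0)

/-- the domain is below the wall through `x` -/
def sT (x : ℤ × ℤ) : Sy := comp (syT x) syD

/-- the domain is above the wall through `x` -/
def sB (x : ℤ × ℤ) : Sy := comp (syT x) (comp (syY 0) syD)

@[simp] lemma sR_g (x : ℤ × ℤ) : (sR x).g (0, 0) = x := by simp [sR, syT]
@[simp] lemma sL_g (x : ℤ × ℤ) : (sL x).g (0, 0) = x := by simp [sL, comp, syT, syX]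
@[simp] lemma sT_g (x : ℤ × ℤ) : (sT x).g (0, 0) = x := by simp [sT, comp, syT, syD]
@[simp] lemma sB_g (x : ℤ × ℤ) : (sB x).g (0, 0) = x := by simp [sB, comp, syT, syY, syD]

lemma HB_R (x : ℤ × ℤ) (k : ℤ) : HB (sR x) k = Bx (x.1 - k) x.1 (x.2 - k) (x.2 + k) := by
  ext e
  rw [mem_HB, mem_Bx, mem_Bx]
  simp only [sR, syT]
  omega

lemma HB_L (x : ℤ × ℤ) (k : ℤ) : HB (sL x) k = Bx x.1 (x.1 + k) (x.2 - k) (x.2 + k) := by
  ext e
  rw [mem_HB, mem_Bx, mem_Bx]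
  simp only [sL, comp, syT, syX]
  omega

lemma HB_T (x : ℤ × ℤ) (k : ℤ) : HB (sT x) k = Bx (x.1 - k) (x.1 + k) (x.2 - k) x.2 := by
  ext e
  rw [mem_HB, mem_Bx, mem_Bx]
  simp only [sT, comp, syT, syD]
  omega

lemma HB_B (x : ℤ × ℤ) (k : ℤ) : HB (sB x) k = Bx (x.1 - k) (x.1 + k) x.2 (x.2 + k) := by
  ext e
  rw [mem_HB, mem_Bx, mem_Bx]
  simp only [sB, comp, syT, syY, syD]
  omega

lemma FB_R (x : ℤ × ℤ) (k : ℤ) :
    FB (sR x) k = Bx (x.1 - k) (x.1 + k) (x.2 - k) (x.2 + k) := by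
  ext e
  rw [mem_FB, mem_Bx, mem_Bx]
  simp only [sR, syT]
  omega

lemma FB_L (x : ℤ × ℤ) (k : ℤ) :
    FB (sL x) k = Bx (x.1 - k) (x.1 + k) (x.2 - k) (x.2 + k) := by
  ext e
  rw [mem_FB, mem_Bx, mem_Bx]
  simp only [sL, comp, syT, syX]
  omega

lemma FB_T (x : ℤ × ℤ) (k : ℤ) :
    FB (sT x) k = Bx (x.1 - k) (x.1 + k) (x.2 - k) (x.2 + k) := by
  ext e
  rw [mem_FB, mem_Bx, mem_Bx]
  simp only [sT, comp, syT, syD]
  omega

lemma FB_B (x : ℤ × ℤ) (k : ℤ) :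
    FB (sB x) k = Bx (x.1 - k) (x.1 + k) (x.2 - k) (x.2 + k) := by
  ext e
  rw [mem_FB, mem_Bx, mem_Bx]
  simp only [sB, comp, syT, syY, syD]
  omega

lemma VI_R (x : ℤ × ℤ) (k : ℤ) (v : ℤ × ℤ) :
    VI (sR x) k v ↔ inB (x.1 - k + 1) x.1 (x.2 - k + 1) (x.2 + k - 1) v := by
  unfold VI inB
  simp only [sR, syT, Prod.fst_sub, Prod.snd_sub]
  omega

lemma VI_L (x : ℤ × ℤ) (k : ℤ) (v : ℤ × ℤ) :
    VI (sL x) k v ↔ inB x.1 (x.1 + k - 1) (x.2 - k + 1) (x.2 + k - 1) v := by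
  unfold VI inB
  simp only [sL, comp, syT, syX, Prod.fst_sub, Prod.snd_sub]
  omega

lemma VI_T (x : ℤ × ℤ) (k : ℤ) (v : ℤ × ℤ) :
    VI (sT x) k v ↔ inB (x.1 - k + 1) (x.1 + k - 1) (x.2 - k + 1) x.2 v := by
  unfold VI inB
  simp only [sT, comp, syT, syD, Prod.fst_sub, Prod.snd_sub]
  omega

lemma VI_B (x : ℤ × ℤ) (k : ℤ) (v : ℤ × ℤ) :
    VI (sB x) k v ↔ inB (x.1 - k + 1) (x.1 + k - 1) x.2 (x.2 + k - 1) v := by
  unfold VI inB
  simp only [sB, comp, syT, syY, syD, Prod.fst_sub, Prod.snd_sub]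
  omega

end Pool.Agent.H49.Q1
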