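import Mathlib
import Pool.Agent.H49.Q1.Harnack
import Pool.Agent.H81.NC.Net
import Pool.Agent.H99.NC.RingP

set_option autoImplicit false
open Finset

/-! Grid polygons: unions of cells of a grid with variable lines. Networks of crossings and the lower
bound for the connection of a flat boundary point to a target side. -/

namespace Pool.Agent.H49.Q1

open Pool.Agent.H75.Perc Pool.Agent.H99.NC Pool.Agent.H81.NC

/-- the labels of the cell with index `c` of the grid with lines `X i`, `Y j` -/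
noncomputable def gcell (X Y : ℤ → ℤ) (c : ℤ × ℤ) : Finset (ℤ × ℤ) :=
  Bx (X c.1) (X (c.1 + 1)) (Y c.2) (Y (c.2 + 1))

/-- the labels of a set of cells -/
noncomputable def gs (X Y : ℤ → ℤ) (S : Finset (ℤ × ℤ)) : Finset (ℤ × ℤ) := S.biUnion (gcell X Y)

lemma mem_gs {X Y : ℤ → ℤ} {S : Finset (ℤ × ℤ)} {e : ℤ × ℤ} :
    e ∈ gs X Y S ↔ ∃ c ∈ S, e ∈ gcell X Y c := by
  unfold gs; rw [mem_biUnion]

lemma gcell_sub_gs {X Y : ℤ → ℤ} {S : Finset (ℤ × ℤ)} {c : ℤ × ℤ} (h : c ∈ S) :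
    gcell X Y c ⊆ gs X Y S := fun _ he => mem_gs.2 ⟨c, h, he⟩

lemma gs_mono {X Y : ℤ → ℤ} {S T : Finset (ℤ × ℤ)} (h : S ⊆ T) : gs X Y S ⊆ gs X Y T :=
  fun _ he => by
    obtain ⟨c, h1, h2⟩ := mem_gs.1 he
    exact mem_gs.2 ⟨c, h h1, h2⟩

/-- full vertex of a cell -/
def GF (X Y : ℤ → ℤ) (c : ℤ × ℤ) (ω : Finset (ℤ × ℤ)) (v : ℤ × ℤ) : Prop :=
  Full (X c.1) (X (c.1 + 1)) (Y c.2) (Y (c.2 + 1)) ω v

/-- All crossings of the cells of `S` and of the pairs of neighbouring cells of `S`. -/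
def GNet (X Y : ℤ → ℤ) (S : Finset (ℤ × ℤ)) (ω : Finset (ℤ × ℤ)) : Prop :=
  ∀ c ∈ S, (HC (X c.1) (X (c.1 + 1)) (Y c.2) (Y (c.2 + 1)) ω ∧
    VC (X c.1) (X (c.1 + 1)) (Y c.2) (Y (c.2 + 1)) ω) ∧
    (c + (1, 0) ∈ S → HC (X c.1) (X (c.1 + 2)) (Y c.2) (Y (c.2 + 1)) ω) ∧
    (c + (0, 1) ∈ S → VC (X c.1) (X (c.1 + 1)) (Y c.2) (Y (c.2 + 2)) ω)

lemma GNet_inc (X Y : ℤ → ℤ) (S : Finset (ℤ × ℤ)) : Inc (GNet X Y S) := by
  intro ω ω' h hN c hc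
  obtain ⟨⟨h1, h2⟩, h3, h4⟩ := hN c hc
  exact ⟨⟨HC_inc _ _ _ _ _ _ h h1, VC_inc _ _ _ _ _ _ h h2⟩,
    fun h5 => HC_inc _ _ _ _ _ _ h (h3 h5), fun h5 => VC_inc _ _ _ _ _ _ h (h4 h5)⟩

lemma GNet.full {X Y : ℤ → ℤ} {S : Finset (ℤ × ℤ)} {ω : Finset (ℤ × ℤ)} (h : GNet X Y S ω)
    {c : ℤ × ℤ} (hc : c ∈ S) : ∃ v, GF X Y c ω v := exists_full (h c hc).1.1 (h c hc).1.2

/-- a horizontal crossing of two rectangles joins their full vertices -/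
lemma full_join_h {a b m c d : ℤ} (h1 : a ≤ m) (h2 : m ≤ b) {ω : Finset (ℤ × ℤ)} {v v' : ℤ × ℤ}
    (hv : Full a m c d ω v) (hv' : Full m b c d ω v') (h : HC a b c d ω) :
    Co (ω ∩ (Bx a m c d ∪ Bx m b c d)) v v' := by
  obtain ⟨p, q, p1, p2, p3, p4⟩ := h
  have hq : inB a b c d q := p4.inB inter_subset_right p1
  obtain ⟨z, z1, z2, z3, z4⟩ := trunc_right (m := m) p1 (by omega) (by omega) p4
  obtain ⟨y, y1, y2, y3, y4⟩ := trunc_left (m := m) hq (by omega) (by omega) p4.symm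
  have hvv := Full.horiz hv (by unfold inB at p1 ⊢; omega) p2 z1 z3
  have hvv' := Full.horiz hv' y2 y1 p3 y3.symm
  have hs : Bx a b c d ⊆ Bx a m c d ∪ Bx m b c d := by
    intro e he
    rw [mem_union, mem_Bx, mem_Bx]
    rw [mem_Bx] at he
    omega
  exact (hvv.mono (inter_subset_inter_left subset_union_left)).trans
    (((p4.trans y4).mono (inter_subset_inter_left hs)).trans
      (hvv'.symm.mono (inter_subset_inter_left subset_union_right)))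

/-- a vertical crossing of two rectangles joins their full vertices -/
lemma full_join_v {a b m c d : ℤ} (h1 : c ≤ m) (h2 : m ≤ d) {ω : Finset (ℤ × ℤ)} {v v' : ℤ × ℤ}
    (hv : Full a b c m ω v) (hv' : Full a b m d ω v') (h : VC a b c d ω) :
    Co (ω ∩ (Bx a b c m ∪ Bx a b m d)) v v' := by
  obtain ⟨p, q, p1, p2, p3, p4⟩ := h
  have hq : inB a b c d q := p4.inB inter_subset_right p1
  obtain ⟨z, z1, z2, z3, z4⟩ := trunc_up (m := m) p1 (by omega) (by omega) p4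
  obtain ⟨y, y1, y2, y3, y4⟩ := trunc_down (m := m) hq (by omega) (by omega) p4.symm
  have hvv := Full.vert hv (by unfold inB at p1 ⊢; omega) p2 z1 z3
  have hvv' := Full.vert hv' y2 y1 p3 y3.symm
  have hs : Bx a b c d ⊆ Bx a b c m ∪ Bx a b m d := by
    intro e he
    rw [mem_union, mem_Bx, mem_Bx]
    rw [mem_Bx] at he
    omega
  exact (hvv.mono (inter_subset_inter_left subset_union_left)).trans
    (((p4.trans y4).mono (inter_subset_inter_left hs)).trans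
      (hvv'.symm.mono (inter_subset_inter_left subset_union_right)))

/-- the grid lines of the cells of `S` have distances between `w` and `K w` -/
def Mesh (X Y : ℤ → ℤ) (S : Finset (ℤ × ℤ)) (w : ℤ) (K : ℕ) : Prop :=
  1 ≤ w ∧ ∀ c ∈ S, (w ≤ X (c.1 + 1) - X c.1 ∧ X (c.1 + 1) - X c.1 ≤ K * w) ∧
    (w ≤ Y (c.2 + 1) - Y c.2 ∧ Y (c.2 + 1) - Y c.2 ≤ K * w)

lemma Mesh.sub {X Y : ℤ → ℤ} {S T : Finset (ℤ × ℤ)} {w : ℤ} {K : ℕ} (h : Mesh X Y T w K)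
    (hs : S ⊆ T) : Mesh X Y S w K := ⟨h.1, fun c hc => h.2 c (hs hc)⟩

lemma GNet.step {X Y : ℤ → ℤ} {S : Finset (ℤ × ℤ)} {w : ℤ} {K : ℕ} (hm : Mesh X Y S w K)
    {ω : Finset (ℤ × ℤ)} (h : GNet X Y S ω) {a b v v' : ℤ × ℤ} (ha : a ∈ S) (hb : b ∈ S)
    (hab : IsUnit4 (b - a)) (hv : GF X Y a ω v) (hv' : GF X Y b ω v') :
    Co (ω ∩ (gcell X Y a ∪ gcell X Y b)) v v' := by
  obtain ⟨⟨m1, -⟩, ⟨m2, -⟩⟩ := hm.2 a ha
  obtain ⟨⟨m3, -⟩, ⟨m4, -⟩⟩ := hm.2 b hb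
  have hw := hm.1
  rcases unit_cases hab with ⟨e1, e2⟩ | ⟨e1, e2⟩ | ⟨e1, e2⟩ | ⟨e1, e2⟩
  · have e : b = a + (1, 0) := Prod.ext (by simpa using e1) (by simpa using e2)
    have h1 := (h a ha).2.1 (e ▸ hb)
    unfold GF at hv hv'
    unfold gcell
    rw [e1, show a.1 + 1 + 1 = a.1 + 2 by ring] at m3
    rw [e1, e2, show a.1 + 1 + 1 = a.1 + 2 by ring] at hv'
    rw [e1, e2, show a.1 + 1 + 1 = a.1 + 2 by ring]
    exact full_join_h (by omega) (by omega) hv hv' h1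
  · have e : b = a + (0, 1) := Prod.ext (by simpa using e1) (by simpa using e2)
    have h1 := (h a ha).2.2 (e ▸ hb)
    unfold GF at hv hv'
    unfold gcell
    rw [e2, show a.2 + 1 + 1 = a.2 + 2 by ring] at m4
    rw [e1, e2, show a.2 + 1 + 1 = a.2 + 2 by ring] at hv'
    rw [e1, e2, show a.2 + 1 + 1 = a.2 + 2 by ring]
    exact full_join_v (by omega) (by omega) hv hv' h1
  · have e : a = b + (1, 0) := Prod.ext (by simp; omega) (by simp; omega)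
    have h1 := (h b hb).2.1 (e ▸ ha)
    have e1' : a.1 = b.1 + 1 := by omega
    have e2' : a.2 = b.2 := by omega
    unfold GF at hv hv'
    unfold gcell
    rw [e1', show b.1 + 1 + 1 = b.1 + 2 by ring] at m1
    rw [e1', e2', show b.1 + 1 + 1 = b.1 + 2 by ring] at hv
    rw [e1', e2', show b.1 + 1 + 1 = b.1 + 2 by ring, union_comm]
    exact (full_join_h (by omega) (by omega) hv' hv h1).symm
  · have e : a = b + (0, 1) := Prod.ext (by simp; omega) (by simp; omega)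
    have h1 := (h b hb).2.2 (e ▸ ha)
    have e1' : a.1 = b.1 := by omega
    have e2' : a.2 = b.2 + 1 := by omega
    unfold GF at hv hv'
    unfold gcell
    rw [e2', show b.2 + 1 + 1 = b.2 + 2 by ring] at m2
    rw [e1', e2', show b.2 + 1 + 1 = b.2 + 2 by ring] at hv
    rw [e1', e2', show b.2 + 1 + 1 = b.2 + 2 by ring, union_comm]
    exact (full_join_v (by omega) (by omega) hv' hv h1).symm

/-- Full vertices of linked cells are connected. -/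
theorem GNet.co {X Y : ℤ → ℤ} {S : Finset (ℤ × ℤ)} {w : ℤ} {K : ℕ} (hm : Mesh X Y S w K)
    {ω : Finset (ℤ × ℤ)} (h : GNet X Y S ω) {c c' v v' : ℤ × ℤ} (hc : c ∈ S) (hl : Lk S c c')
    (hv : GF X Y c ω v) (hv' : GF X Y c' ω v') : Co (ω ∩ gs X Y S) v v' := by
  induction hl generalizing v' with
  | refl => exact (hv.all hv').mono (inter_subset_inter_left (gcell_sub_gs hc))
  | @tail b d hab hbd ih =>
    obtain ⟨u, hu⟩ := h.full hbd.1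
    have h1 := ih hu
    have h2 := h.step hm hbd.1 hbd.2.1 hbd.2.2 hu hv'
    exact h1.trans (h2.mono (inter_subset_inter_left
      (union_subset (gcell_sub_gs hbd.1) (gcell_sub_gs hbd.2.1))))

lemma cp_half_Qh : Qh (cp (1 / 2)) := fun e => by unfold cp; norm_num

/-- RSW for the uniform measure -/
theorem rsw_Pr (k : ℕ) : ∃ c : ℝ, 0 < c ∧ c ≤ 1 ∧ ∀ (E : Finset (ℤ × ℤ))
    (a b x y : ℤ), a ≤ b → x ≤ y → Bx a b x y ⊆ E →
    (b - a ≤ k * (y - x + 1) → c ≤ Pr E (HC a b x y)) ∧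
    (y - x ≤ k * (b - a + 1) → c ≤ Pr E (VC a b x y)) := by
  obtain ⟨c, hc, h⟩ := rsw_q k
  refine ⟨min c 1, lt_min hc one_pos, min_le_right _ _, fun E a b x y h1 h2 h3 => ?_⟩
  obtain ⟨h4, h5⟩ := h (cp (1 / 2)) cp_half_Qh E a b x y h1 h2 h3
  have e : ∀ A : Finset (ℤ × ℤ) → Prop, PrP (cp (1 / 2)) E A = Pr E A := fun A => PrP_half E A
  rw [e] at h4 h5
  exact ⟨fun h6 => (min_le_left _ _).trans (h4 h6), fun h6 => (min_le_left _ _).trans (h5 h6)⟩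

lemma Pr_mul_le {E : Finset (ℤ × ℤ)} {A B : Finset (ℤ × ℤ) → Prop}
    (hA : Inc A) (hB : Inc B) {x y : ℝ} (hx : 0 ≤ x) (hy : 0 ≤ y) (h1 : x ≤ Pr E A)
    (h2 : y ≤ Pr E B) : x * y ≤ Pr E (fun ω => A ω ∧ B ω) :=
  (mul_le_mul h1 h2 hy (hx.trans h1)).trans (Pr_harris E hA hB)

lemma Pr_harris_set {α ι : Type*} [DecidableEq α] [DecidableEq ι]
    (E : Finset α) {c : ℝ} (hc : 0 ≤ c) (s : Finset ι) (A : ι → Finset α → Prop)
    (hI : ∀ i ∈ s, Inc (A i)) (h : ∀ i ∈ s, c ≤ Pr E (A i)) :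
    c ^ s.card ≤ Pr E (fun ω => ∀ i ∈ s, A i ω) := by
  induction s using Finset.induction_on with
  | empty => simp [Pr_true]
  | insert i s hi ih =>
    have h1 := ih (fun j hj => hI j (mem_insert_of_mem hj)) (fun j hj => h j (mem_insert_of_mem hj))
    have h2 := h i (mem_insert_self _ _)
    have hL : Inc (fun ω => ∀ j ∈ s, A j ω) := fun ω ω' hs hB j hj =>
      hI j (mem_insert_of_mem hj) ω ω' hs (hB j hj)
    have h3 := Pr_harris E (hI i (mem_insert_self _ _)) hL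
    have h4 : Pr E (fun ω => A i ω ∧ ∀ j ∈ s, A j ω) =
        Pr E (fun ω => ∀ j ∈ insert i s, A j ω) :=
      Pr_congr fun ω _ => by simp
    rw [← h4, card_insert_of_notMem hi, pow_succ, mul_comm]
    exact (mul_le_mul h2 h1 (pow_nonneg hc _) (Pr_nonneg _ _)).trans h3

/-- Lower bound for the probability of a network. -/
theorem Pr_GNet (K : ℕ) : ∃ c : ℝ, 0 < c ∧ c ≤ 1 ∧ ∀ (X Y : ℤ → ℤ) (S : Finset (ℤ × ℤ)) (w : ℤ)
    (_ : Mesh X Y S w K) (E : Finset (ℤ × ℤ)) (_ : gs X Y S ⊆ E), c ^ S.card ≤ Pr E (GNet X Y S) := by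
  obtain ⟨c, hc, hc1, h⟩ := rsw_Pr (2 * K)
  refine ⟨c ^ 4, by positivity, pow_le_one₀ hc.le hc1, fun X Y S w hm E hE => ?_⟩
  have hw := hm.1
  have key : ∀ k ∈ S, c ^ 4 ≤ Pr E (fun ω => (HC (X k.1) (X (k.1 + 1)) (Y k.2) (Y (k.2 + 1)) ω ∧
      VC (X k.1) (X (k.1 + 1)) (Y k.2) (Y (k.2 + 1)) ω) ∧
      (k + (1, 0) ∈ S → HC (X k.1) (X (k.1 + 2)) (Y k.2) (Y (k.2 + 1)) ω) ∧
      (k + (0, 1) ∈ S → VC (X k.1) (X (k.1 + 1)) (Y k.2) (Y (k.2 + 2)) ω)) := by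
    intro k hk
    obtain ⟨⟨m1, m2⟩, m3, m4⟩ := hm.2 k hk
    have h1 : gcell X Y k ⊆ E := (gcell_sub_gs hk).trans hE
    have hK : (0 : ℤ) ≤ K := by positivity
    have j1 := (h E _ _ _ _ (by omega) (by omega) h1).1 (by push_cast; nlinarith)
    have j2 := (h E _ _ _ _ (by omega) (by omega) h1).2 (by push_cast; nlinarith)
    have i1 := Pr_mul_le (HC_inc (X k.1) (X (k.1 + 1)) (Y k.2) (Y (k.2 + 1)))
      (VC_inc (X k.1) (X (k.1 + 1)) (Y k.2) (Y (k.2 + 1))) hc.le hc.le j1 j2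
    have hI : Inc (fun ω => HC (X k.1) (X (k.1 + 1)) (Y k.2) (Y (k.2 + 1)) ω ∧
        VC (X k.1) (X (k.1 + 1)) (Y k.2) (Y (k.2 + 1)) ω) := fun ω ω' hs hh =>
      ⟨HC_inc _ _ _ _ _ _ hs hh.1, VC_inc _ _ _ _ _ _ hs hh.2⟩
    have hI2 : Inc (fun ω => k + (1, 0) ∈ S → HC (X k.1) (X (k.1 + 2)) (Y k.2) (Y (k.2 + 1)) ω) :=
      fun ω ω' hs hh h5 => HC_inc _ _ _ _ _ _ hs (hh h5)
    have hI3 : Inc (fun ω => k + (0, 1) ∈ S → VC (X k.1) (X (k.1 + 1)) (Y k.2) (Y (k.2 + 2)) ω) :=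
      fun ω ω' hs hh h5 => VC_inc _ _ _ _ _ _ hs (hh h5)
    have hT : c ≤ Pr E (fun _ => True) := by rw [Pr_true]; exact hc1
    have i2 : c ≤ Pr E (fun ω => k + (1, 0) ∈ S →
        HC (X k.1) (X (k.1 + 2)) (Y k.2) (Y (k.2 + 1)) ω) := by
      by_cases h5 : k + (1, 0) ∈ S
      · obtain ⟨⟨m5, m6⟩, -, -⟩ := hm.2 _ h5
        have h6 : gcell X Y (k + (1, 0)) ⊆ E := (gcell_sub_gs h5).trans hE
        unfold gcell at h1 h6
        simp only [Prod.fst_add, Prod.snd_add, add_zero] at m5 m6 h6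
        rw [show k.1 + 1 + 1 = k.1 + 2 by ring] at m5 m6 h6
        have h7 : Bx (X k.1) (X (k.1 + 2)) (Y k.2) (Y (k.2 + 1)) ⊆ E := by
          intro e he
          rw [mem_Bx] at he
          rcases le_total e.1 (2 * X (k.1 + 1)) with h8 | h8
          · exact h1 (mem_Bx.2 ⟨⟨he.1.1, h8⟩, he.2⟩)
          · exact h6 (mem_Bx.2 ⟨⟨h8, he.1.2⟩, he.2⟩)
        exact ((h E _ _ _ _ (by omega) (by omega) h7).1 (by push_cast; nlinarith)).trans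
          (Pr_mono fun ω _ hω _ => hω)
      · exact hT.trans (Pr_mono fun ω _ _ h6 => absurd h6 h5)
    have i3 : c ≤ Pr E (fun ω => k + (0, 1) ∈ S →
        VC (X k.1) (X (k.1 + 1)) (Y k.2) (Y (k.2 + 2)) ω) := by
      by_cases h5 : k + (0, 1) ∈ S
      · obtain ⟨-, m5, m6⟩ := hm.2 _ h5
        have h6 : gcell X Y (k + (0, 1)) ⊆ E := (gcell_sub_gs h5).trans hE
        unfold gcell at h1 h6
        simp only [Prod.fst_add, Prod.snd_add, add_zero] at m5 m6 h6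
        rw [show k.2 + 1 + 1 = k.2 + 2 by ring] at m5 m6 h6
        have h7 : Bx (X k.1) (X (k.1 + 1)) (Y k.2) (Y (k.2 + 2)) ⊆ E := by
          intro e he
          rw [mem_Bx] at he
          rcases le_total e.2 (2 * Y (k.2 + 1)) with h8 | h8
          · exact h1 (mem_Bx.2 ⟨he.1, ⟨he.2.1.1, h8⟩, he.2.2⟩)
          · exact h6 (mem_Bx.2 ⟨he.1, ⟨h8, he.2.1.2⟩, he.2.2⟩)
        exact ((h E _ _ _ _ (by omega) (by omega) h7).2 (by push_cast; nlinarith)).trans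
          (Pr_mono fun ω _ hω _ => hω)
      · exact hT.trans (Pr_mono fun ω _ _ h6 => absurd h6 h5)
    have i4 := Pr_mul_le hI2 hI3 hc.le hc.le i2 i3
    have hI4 : Inc (fun ω => (k + (1, 0) ∈ S → HC (X k.1) (X (k.1 + 2)) (Y k.2) (Y (k.2 + 1)) ω) ∧
        (k + (0, 1) ∈ S → VC (X k.1) (X (k.1 + 1)) (Y k.2) (Y (k.2 + 2)) ω)) := fun ω ω' hs hh =>
      ⟨hI2 _ _ hs hh.1, hI3 _ _ hs hh.2⟩
    have i5 := Pr_mul_le hI hI4 (mul_nonneg hc.le hc.le) (mul_nonneg hc.le hc.le) i1 i4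
    refine le_trans (le_of_eq ?_) i5
    ring
  exact Pr_harris_set E (pow_nonneg hc.le 4) S _ (fun k _ ω ω' hs hh =>
    ⟨⟨HC_inc _ _ _ _ _ _ hs hh.1.1, VC_inc _ _ _ _ _ _ hs hh.1.2⟩,
      fun h5 => HC_inc _ _ _ _ _ _ hs (hh.2.1 h5), fun h5 => VC_inc _ _ _ _ _ _ hs (hh.2.2 h5)⟩)
    key

/-! ### The target side -/

/-- `J` contains one of the four sides of the cell `c` -/
def SideIn (X Y : ℤ → ℤ) (c : ℤ × ℤ) (J : ℤ × ℤ → Prop) : Prop :=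
  (∀ v, inB (X c.1) (X (c.1 + 1)) (Y c.2) (Y (c.2 + 1)) v → v.1 = X c.1 → J v) ∨
  (∀ v, inB (X c.1) (X (c.1 + 1)) (Y c.2) (Y (c.2 + 1)) v → v.1 = X (c.1 + 1) → J v) ∨
  (∀ v, inB (X c.1) (X (c.1 + 1)) (Y c.2) (Y (c.2 + 1)) v → v.2 = Y c.2 → J v) ∨
  (∀ v, inB (X c.1) (X (c.1 + 1)) (Y c.2) (Y (c.2 + 1)) v → v.2 = Y (c.2 + 1) → J v)

lemma SideIn.co {X Y : ℤ → ℤ} {c : ℤ × ℤ} {J : ℤ × ℤ → Prop} (h : SideIn X Y c J)
    {ω : Finset (ℤ × ℤ)} {v : ℤ × ℤ} (hv : GF X Y c ω v) :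
    ∃ z, J z ∧ Co (ω ∩ gcell X Y c) v z := by
  obtain ⟨h0, ⟨p1, e1, c1⟩, ⟨p2, e2, c2⟩, ⟨p3, e3, c3⟩, ⟨p4, e4, c4⟩⟩ := hv
  rcases h with h | h | h | h
  · exact ⟨p1, h p1 (c1.inB inter_subset_right h0) e1, c1⟩
  · exact ⟨p2, h p2 (c2.inB inter_subset_right h0) e2, c2⟩
  · exact ⟨p3, h p3 (c3.inB inter_subset_right h0) e3, c3⟩
  · exact ⟨p4, h p4 (c4.inB inter_subset_right h0) e4, c4⟩

/-! ### Points on the sides of a cell -/

/-- `x` is a point of a side of the cell `c` at distance at least `j` from the corners, and `S` is the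
corresponding orientation. -/
def OnSide (X Y : ℤ → ℤ) (c : ℤ × ℤ) (j : ℤ) (x : ℤ × ℤ) (S : Sy) : Prop :=
  (S = sR x ∧ x.1 = X (c.1 + 1) ∧ Y c.2 ≤ x.2 - j ∧ x.2 + j ≤ Y (c.2 + 1)) ∨
  (S = sL x ∧ x.1 = X c.1 ∧ Y c.2 ≤ x.2 - j ∧ x.2 + j ≤ Y (c.2 + 1)) ∨
  (S = sT x ∧ x.2 = Y (c.2 + 1) ∧ X c.1 ≤ x.1 - j ∧ x.1 + j ≤ X (c.1 + 1)) ∨
  (S = sB x ∧ x.2 = Y c.2 ∧ X c.1 ≤ x.1 - j ∧ x.1 + j ≤ X (c.1 + 1))

lemma OnSide.g {X Y : ℤ → ℤ} {c : ℤ × ℤ} {j : ℤ} {x : ℤ × ℤ} {S : Sy} (h : OnSide X Y c j x S) :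
    S.g (0, 0) = x := by
  rcases h with ⟨rfl, -⟩ | ⟨rfl, -⟩ | ⟨rfl, -⟩ | ⟨rfl, -⟩
  · exact sR_g x
  · exact sL_g x
  · exact sT_g x
  · exact sB_g x

/-- the crossing of the cell through the window around `x` -/
def Brg (X Y : ℤ → ℤ) (c : ℤ × ℤ) (j : ℤ) (x : ℤ × ℤ) (ω : Finset (ℤ × ℤ)) : Prop :=
  ((x.1 = X (c.1 + 1) ∨ x.1 = X c.1) ∧ (Y c.2 ≤ x.2 - j ∧ x.2 + j ≤ Y (c.2 + 1)) →
    HC (X c.1) (X (c.1 + 1)) (x.2 - j) (x.2 + j) ω) ∧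
  ((x.2 = Y (c.2 + 1) ∨ x.2 = Y c.2) ∧ (X c.1 ≤ x.1 - j ∧ x.1 + j ≤ X (c.1 + 1)) →
    VC (x.1 - j) (x.1 + j) (Y c.2) (Y (c.2 + 1)) ω)

lemma Brg_inc (X Y : ℤ → ℤ) (c : ℤ × ℤ) (j : ℤ) (x : ℤ × ℤ) : Inc (Brg X Y c j x) :=
  fun _ _ h hB => ⟨fun h1 => HC_inc _ _ _ _ _ _ h (hB.1 h1), fun h1 => VC_inc _ _ _ _ _ _ h (hB.2 h1)⟩

/-- the crossing of the window connects the half box to the full vertex of the cell -/
lemma OnSide.co {X Y : ℤ → ℤ} {c : ℤ × ℤ} {j : ℤ} {x : ℤ × ℤ} {S : Sy} (hj : 0 ≤ j)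
    (h : OnSide X Y c j x S) {ω : Finset (ℤ × ℤ)} (hB : Brg X Y c j x ω) {v : ℤ × ℤ}
    (hv : GF X Y c ω v) : ∃ u, VB S j u ∧ Co (ω ∩ gcell X Y c) u v := by
  have hmh : Y c.2 ≤ x.2 - j ∧ x.2 + j ≤ Y (c.2 + 1) →
      ω ∩ Bx (X c.1) (X (c.1 + 1)) (x.2 - j) (x.2 + j) ⊆ ω ∩ gcell X Y c := fun h1 =>
    inter_subset_inter_left (Bx_sub le_rfl le_rfl h1.1 h1.2)
  have hmv : X c.1 ≤ x.1 - j ∧ x.1 + j ≤ X (c.1 + 1) →
      ω ∩ Bx (x.1 - j) (x.1 + j) (Y c.2) (Y (c.2 + 1)) ⊆ ω ∩ gcell X Y c := fun h1 =>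
    inter_subset_inter_left (Bx_sub h1.1 h1.2 le_rfl le_rfl)
  rcases h with ⟨rfl, h1, h2⟩ | ⟨rfl, h1, h2⟩ | ⟨rfl, h1, h2⟩ | ⟨rfl, h1, h2⟩
  · obtain ⟨p, q, p1, p2, p3, p4⟩ := hB.1 ⟨Or.inl h1, h2⟩
    have hq := p4.inB inter_subset_right p1
    have h3 := hv.horiz (by unfold inB at p1 ⊢; omega) p2 p3 (p4.mono (hmh h2))
    refine ⟨q, ?_, ((p4.mono (hmh h2)).symm.trans h3.symm)⟩
    unfold VB inB
    unfold inB at hq
    simp only [sR, syT, Prod.fst_sub, Prod.snd_sub]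
    omega
  · obtain ⟨p, q, p1, p2, p3, p4⟩ := hB.1 ⟨Or.inr h1, h2⟩
    have h3 := hv.horiz (by unfold inB at p1 ⊢; omega) p2 p3 (p4.mono (hmh h2))
    refine ⟨p, ?_, h3.symm⟩
    unfold VB inB
    unfold inB at p1
    simp only [sL, comp, syT, syX, Prod.fst_sub, Prod.snd_sub]
    omega
  · obtain ⟨p, q, p1, p2, p3, p4⟩ := hB.2 ⟨Or.inl h1, h2⟩
    have hq := p4.inB inter_subset_right p1
    have h3 := hv.vert (by unfold inB at p1 ⊢; omega) p2 p3 (p4.mono (hmv h2))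
    refine ⟨q, ?_, ((p4.mono (hmv h2)).symm.trans h3.symm)⟩
    unfold VB inB
    unfold inB at hq
    simp only [sT, comp, syT, syD, Prod.fst_sub, Prod.snd_sub]
    omega
  · obtain ⟨p, q, p1, p2, p3, p4⟩ := hB.2 ⟨Or.inr h1, h2⟩
    have h3 := hv.vert (by unfold inB at p1 ⊢; omega) p2 p3 (p4.mono (hmv h2))
    refine ⟨p, ?_, h3.symm⟩
    unfold VB inB
    unfold inB at p1
    simp only [sB, comp, syT, syY, syD, Prod.fst_sub, Prod.snd_sub]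
    omega

/-- **Lower bound (T2)**: a flat boundary point of a grid polygon is connected to a target which
contains a side of a linked cell. -/
theorem T2_lower (K m M : ℕ) : ∃ c : ℝ, 0 < c ∧ ∀ {X Y : ℤ → ℤ} {S : Finset (ℤ × ℤ)} {w : ℤ}
    (_ : Mesh X Y S w K) (_ : S.card ≤ M) {E W : Finset (ℤ × ℤ)} (_ : gs X Y S ⊆ E)
    {c0 cT : ℤ × ℤ} (_ : c0 ∈ S) (_ : Lk S c0 cT) {x : ℤ × ℤ} {T : Sy} {j : ℕ} (_ : 1 ≤ j)
    (_ : w ≤ m * j) (_ : OnSide X Y c0 j x T) (_ : Flat T E W (4 * j)) {J : ℤ × ℤ → Prop}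
    (_ : SideIn X Y cT J) (_ : ∀ v, J v → ¬ VI T (4 * j) v),
    c * ph j ≤ Pr E (CJ W J x) := by
  obtain ⟨c1, hc1, hc1', h1⟩ := Pr_GNet K
  obtain ⟨c2, hc2, hc2', h2⟩ := rsw_Pr (K * m)
  obtain ⟨c3, hc3, h3⟩ := qm_lower'
  refine ⟨c3 * (c1 ^ M * (c2 * c2)), by positivity, ?_⟩
  intro X Y S w hm hM E W hE c0 cT hc0 hl x T j hj hwj hx hF J hT hJ
  have hw := hm.1
  have hK : (0 : ℤ) ≤ K := by positivity
  have hm0 : (0 : ℤ) ≤ m := by positivity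
  obtain ⟨⟨m1, m2⟩, m3, m4⟩ := hm.2 c0 hc0
  have hcell : gcell X Y c0 ⊆ E := (gcell_sub_gs hc0).trans hE
  -- the bridge
  have hKm : (K : ℤ) * w ≤ (K * m : ℤ) * (2 * j + 1) := by nlinarith
  have b1 : c2 ≤ Pr E (fun ω => (x.1 = X (c0.1 + 1) ∨ x.1 = X c0.1) ∧
      (Y c0.2 ≤ x.2 - j ∧ x.2 + j ≤ Y (c0.2 + 1)) →
      HC (X c0.1) (X (c0.1 + 1)) (x.2 - j) (x.2 + j) ω) := by
    by_cases h5 : (x.1 = X (c0.1 + 1) ∨ x.1 = X c0.1) ∧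
      (Y c0.2 ≤ x.2 - j ∧ x.2 + j ≤ Y (c0.2 + 1))
    · refine ((h2 E (X c0.1) (X (c0.1 + 1)) (x.2 - j) (x.2 + j) (by omega) (by omega)
        ((Bx_sub le_rfl le_rfl h5.2.1 h5.2.2).trans hcell)).1 ?_).trans
        (Pr_mono fun ω _ hω _ => hω)
      push_cast
      have : (x.2 + (j : ℤ) - (x.2 - j) + 1) = 2 * j + 1 := by ring
      rw [this]
      linarith
    · have hT : c2 ≤ Pr E (fun _ => True) := by rw [Pr_true]; exact hc2'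
      exact hT.trans (Pr_mono fun ω _ _ h6 => absurd h6 h5)
  have b2 : c2 ≤ Pr E (fun ω => (x.2 = Y (c0.2 + 1) ∨ x.2 = Y c0.2) ∧
      (X c0.1 ≤ x.1 - j ∧ x.1 + j ≤ X (c0.1 + 1)) →
      VC (x.1 - j) (x.1 + j) (Y c0.2) (Y (c0.2 + 1)) ω) := by
    by_cases h5 : (x.2 = Y (c0.2 + 1) ∨ x.2 = Y c0.2) ∧
      (X c0.1 ≤ x.1 - j ∧ x.1 + j ≤ X (c0.1 + 1))
    · refine ((h2 E (x.1 - j) (x.1 + j) (Y c0.2) (Y (c0.2 + 1)) (by omega) (by omega)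
        ((Bx_sub h5.2.1 h5.2.2 le_rfl le_rfl).trans hcell)).2 ?_).trans
        (Pr_mono fun ω _ hω _ => hω)
      push_cast
      have : (x.1 + (j : ℤ) - (x.1 - j) + 1) = 2 * j + 1 := by ring
      rw [this]
      linarith
    · have hT : c2 ≤ Pr E (fun _ => True) := by rw [Pr_true]; exact hc2'
      exact hT.trans (Pr_mono fun ω _ _ h6 => absurd h6 h5)
  have hI1 : Inc (fun ω : Finset (ℤ × ℤ) => (x.1 = X (c0.1 + 1) ∨ x.1 = X c0.1) ∧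
      (Y c0.2 ≤ x.2 - j ∧ x.2 + j ≤ Y (c0.2 + 1)) →
      HC (X c0.1) (X (c0.1 + 1)) (x.2 - j) (x.2 + j) ω) :=
    fun _ _ h hB h1 => HC_inc _ _ _ _ _ _ h (hB h1)
  have hI2 : Inc (fun ω : Finset (ℤ × ℤ) => (x.2 = Y (c0.2 + 1) ∨ x.2 = Y c0.2) ∧
      (X c0.1 ≤ x.1 - j ∧ x.1 + j ≤ X (c0.1 + 1)) →
      VC (x.1 - j) (x.1 + j) (Y c0.2) (Y (c0.2 + 1)) ω) :=
    fun _ _ h hB h1 => VC_inc _ _ _ _ _ _ h (hB h1)
  have b3 : c2 * c2 ≤ Pr E (Brg X Y c0 j x) := Pr_mul_le hI1 hI2 hc2.le hc2.le b1 b2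
  have b4 : c1 ^ M ≤ Pr E (GNet X Y S) :=
    (pow_le_pow_of_le_one hc1.le hc1' hM).trans (h1 X Y S w hm E hE)
  have b5 := Pr_mul_le (GNet_inc X Y S) (Brg_inc X Y c0 j x) (by positivity) (by positivity) b4 b3
  -- the connection of the wired half box
  have b6 : Pr E (fun ω => GNet X Y S ω ∧ Brg X Y c0 j x ω) ≤
      Pr E (CJ (W ∪ HB T j) J (T.g (0, 0))) := by
    apply Pr_mono
    rintro ω _ ⟨g1, g2⟩
    obtain ⟨v, hv⟩ := g1.full hc0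
    obtain ⟨v', hv'⟩ := g1.full (hl.mem hc0)
    obtain ⟨u, hu, hc⟩ := hx.co (by omega) g2 hv
    obtain ⟨z, hz, hc'⟩ := hT.co hv'
    have h7 := g1.co hm hc0 hl hv hv'
    refine ⟨z, hz, ?_⟩
    have h8 : Co (ω ∪ (W ∪ HB T j)) (T.g (0, 0)) u :=
      (HB_conn (VB_center T (by omega)) hu).mono (subset_union_right.trans subset_union_right)
    exact h8.trans ((((hc.mono inter_subset_left).trans (h7.mono inter_subset_left)).trans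
      (hc'.mono inter_subset_left)).mono subset_union_left)
  have b7 := h3 hj hF hJ
  rw [hx.g] at b7 b6
  have hp : 0 ≤ ph j := Pr_nonneg _ _
  calc c3 * (c1 ^ M * (c2 * c2)) * ph j = c3 * (ph j * (c1 ^ M * (c2 * c2))) := by ring
    _ ≤ c3 * (ph j * Pr E (CJ (W ∪ HB T j) J x)) := by
      refine mul_le_mul_of_nonneg_left (mul_le_mul_of_nonneg_left (b5.trans b6) hp) hc3.le
    _ ≤ _ := b7

end Pool.Agent.H49.Q1
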