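import Mathlib
import Pool.Agent.H49.Q1.Grid

set_option autoImplicit false
open Finset

/-! The `k`-point bound for points of the flat sides of a grid polygon, in terms of distances. -/

namespace Pool.Agent.H49.Q1

open Pool.Agent.H75.Perc Pool.Agent.H99.NC

/-- the orientation of a side which is traversed in the direction `dir k` with the domain on the left -/
def Sd (k : ℤ) (x : ℤ × ℤ) : Sy :=
  if k % 4 = 0 then sB x else if k % 4 = 1 then sR x else if k % 4 = 2 then sT x else sL x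

lemma Sd_cases (k : ℤ) (x : ℤ × ℤ) : (k % 4 = 0 ∧ Sd k x = sB x) ∨ (k % 4 = 1 ∧ Sd k x = sR x) ∨
    (k % 4 = 2 ∧ Sd k x = sT x) ∨ (k % 4 = 3 ∧ Sd k x = sL x) := by
  have h : k % 4 = 0 ∨ k % 4 = 1 ∨ k % 4 = 2 ∨ k % 4 = 3 := by omega
  unfold Sd
  rcases h with h | h | h | h
  · left; simp [h]
  · right; left; simp [h]
  · right; right; left; simp [h]
  · right; right; right; simp [h]

@[simp] lemma Sd_g (k : ℤ) (x : ℤ × ℤ) : (Sd k x).g (0, 0) = x := by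
  rcases Sd_cases k x with ⟨-, h⟩ | ⟨-, h⟩ | ⟨-, h⟩ | ⟨-, h⟩ <;> rw [h]
  · exact sB_g x
  · exact sR_g x
  · exact sT_g x
  · exact sL_g x

lemma FB_Sd (k : ℤ) (x : ℤ × ℤ) (r : ℤ) :
    FB (Sd k x) r = Bx (x.1 - r) (x.1 + r) (x.2 - r) (x.2 + r) := by
  rcases Sd_cases k x with ⟨-, h⟩ | ⟨-, h⟩ | ⟨-, h⟩ | ⟨-, h⟩ <;> rw [h]
  · exact FB_B x r
  · exact FB_R x r
  · exact FB_T x r
  · exact FB_L x r

/-- the sup distance of `x` and `y` is at least `r` -/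
def far (x y : ℤ × ℤ) (r : ℤ) : Prop := r ≤ |x.1 - y.1| ∨ r ≤ |x.2 - y.2|

lemma far_symm {x y : ℤ × ℤ} {r : ℤ} (h : far x y r) : far y x r := by
  unfold far at *
  rwa [abs_sub_comm, abs_sub_comm y.2]

lemma far_mono {x y : ℤ × ℤ} {r r' : ℤ} (hr : r' ≤ r) (h : far x y r) : far x y r' := by
  unfold far at *
  omega

lemma VI_far {k : ℤ} {x v : ℤ × ℤ} {r : ℤ} (hv : VI (Sd k x) r v) : ¬ far x v r := by
  unfold far
  rw [not_or]
  have key : ∀ a b : ℤ, a - r < b → b < a + r → ¬ r ≤ |a - b| := by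
    intro a b h1 h2 h3
    rcases abs_cases (a - b) with ⟨h4, -⟩ | ⟨h4, -⟩ <;> omega
  rcases Sd_cases k x with ⟨-, h⟩ | ⟨-, h⟩ | ⟨-, h⟩ | ⟨-, h⟩ <;> rw [h] at hv
  · rw [VI_B] at hv
    unfold inB at hv
    exact ⟨key _ _ (by omega) (by omega), key _ _ (by omega) (by omega)⟩
  · rw [VI_R] at hv
    unfold inB at hv
    exact ⟨key _ _ (by omega) (by omega), key _ _ (by omega) (by omega)⟩
  · rw [VI_T] at hv
    unfold inB at hv
    exact ⟨key _ _ (by omega) (by omega), key _ _ (by omega) (by omega)⟩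
  · rw [VI_L] at hv
    unfold inB at hv
    exact ⟨key _ _ (by omega) (by omega), key _ _ (by omega) (by omega)⟩

/-- the half boxes of radii `(r - 1) / 2` of far points are disjoint -/
lemma HB_disj {k k' : ℤ} {x y : ℤ × ℤ} {r r' : ℤ} (h1 : 1 ≤ r) (h2 : 1 ≤ r') (h : far x y r)
    (h' : far x y r') : Disjoint (HB (Sd k x) ((r - 1) / 2)) (HB (Sd k' y) ((r' - 1) / 2)) := by
  rw [disjoint_left]
  intro e he he'
  have e1 := HB_sub_FB (Sd k x) (by omega) he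
  have e2 := HB_sub_FB (Sd k' y) (by omega) he'
  rw [FB_Sd, mem_Bx] at e1 e2
  unfold far at h h'
  rcases abs_cases (x.1 - y.1) with ⟨h4, -⟩ | ⟨h4, -⟩ <;>
  rcases abs_cases (x.2 - y.2) with ⟨h5, -⟩ | ⟨h5, -⟩ <;> rw [h4, h5] at h h' <;> omega

lemma ph_half : ∃ C : ℝ, 1 ≤ C ∧ ∀ r : ℤ, 1 ≤ r →
    ph ((r - 1) / 2) ≤ C * (r : ℝ) ^ (-(1 / 3) : ℝ) := by
  obtain ⟨C, hC, h⟩ := ph_upper
  have h6 : (1 : ℝ) ≤ 6 ^ (1 / 3 : ℝ) := Real.one_le_rpow (by norm_num) (by norm_num)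
  refine ⟨C * 6 ^ (1 / 3 : ℝ), by nlinarith, fun r hr => ?_⟩
  have hr' : (1 : ℝ) ≤ r := by exact_mod_cast hr
  have key : ∀ t : ℝ, 0 < t → (r : ℝ) ≤ 6 * t →
      t ^ (-(1 / 3) : ℝ) ≤ 6 ^ (1 / 3 : ℝ) * (r : ℝ) ^ (-(1 / 3) : ℝ) := by
    intro t ht h1
    have h2 : (r : ℝ) ^ (1 / 3 : ℝ) ≤ (6 * t) ^ (1 / 3 : ℝ) :=
      Real.rpow_le_rpow (by linarith) h1 (by norm_num)
    rw [Real.mul_rpow (by norm_num) ht.le] at h2
    rw [Real.rpow_neg ht.le, Real.rpow_neg (by linarith), ← div_eq_mul_inv, inv_eq_one_div,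
      div_le_div_iff₀ (Real.rpow_pos_of_pos ht _) (Real.rpow_pos_of_pos (by linarith) _)]
    linarith
  rcases le_or_gt r 2 with h2 | h2
  · have h3 : ph ((r - 1) / 2) ≤ 1 := Pr_le_one _ _
    have h4 := key 1 one_pos (by
      have : (r : ℝ) ≤ 2 := by exact_mod_cast h2
      linarith)
    rw [Real.one_rpow] at h4
    calc ph ((r - 1) / 2) ≤ 1 := h3
      _ ≤ 6 ^ (1 / 3 : ℝ) * (r : ℝ) ^ (-(1 / 3) : ℝ) := h4
      _ ≤ C * (6 ^ (1 / 3 : ℝ) * (r : ℝ) ^ (-(1 / 3) : ℝ)) :=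
        le_mul_of_one_le_left (by positivity) hC
      _ = _ := by ring
  · have hk : 1 ≤ (r - 1) / 2 := by omega
    have h3 := h _ hk
    have h4 := key (((r - 1) / 2 : ℤ) : ℝ) (by exact_mod_cast hk) (by
      have : r ≤ 6 * ((r - 1) / 2) := by omega
      exact_mod_cast this)
    calc ph ((r - 1) / 2) ≤ C * (((r - 1) / 2 : ℤ) : ℝ) ^ (-(1 / 3) : ℝ) := h3
      _ ≤ C * (6 ^ (1 / 3 : ℝ) * (r : ℝ) ^ (-(1 / 3) : ℝ)) :=
        mul_le_mul_of_nonneg_left h4 (by linarith)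
      _ = _ := by ring

/-- **The `k`-point bound in terms of distances (C2').** The points `x i` lie on flat walls; `r i` is a
lower bound for the sup distance of `x i` to the other points and to the target `J i`, and up to the
distance `r i` the environment is contained in the half plane and nothing is wired. -/
theorem kpoint_dist : ∃ C : ℝ, 1 ≤ C ∧ ∀ {ι : Type} (s : Finset ι) (x : ι → ℤ × ℤ) (k : ι → ℤ)
    (r : ι → ℤ) (_ : ∀ i ∈ s, 1 ≤ r i) (_ : ∀ i ∈ s, ∀ j ∈ s, i ≠ j → far (x i) (x j) (r i))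
    {E W : Finset (ℤ × ℤ)} (_ : ∀ i ∈ s, Thin (Sd (k i) (x i)) E W (r i))
    (J : ι → ℤ × ℤ → Prop) (_ : ∀ i ∈ s, ∀ v, J i v → far (x i) v (r i)),
    Pr E (fun ω => ∀ i ∈ s, CJ W (J i) (x i) ω) ≤
      ∏ i ∈ s, (C * (r i : ℝ) ^ (-(1 / 3) : ℝ)) := by
  obtain ⟨C, hC, h⟩ := ph_half
  refine ⟨C, hC, fun {ι} s x k r hr hd {E W} hT J hJ => ?_⟩
  have h1 := kpoint_le s (fun i => Sd (k i) (x i)) (fun i => (r i - 1) / 2)
    (fun i hi => by have := hr i hi; omega) (E := E) (W := W)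
    (fun i hi => (hT i hi).mono_k (by have := hr i hi; omega))
    (fun i hi j hj hij => HB_disj (hr i hi) (hr j hj) (hd i hi j hj hij)
      (far_symm (hd j hj i hi hij.symm))) J
    (fun i hi v hv hv' => VI_far hv' (far_mono (by have := hr i hi; omega) (hJ i hi v hv)))
  simp only [Sd_g] at h1
  exact h1.trans (prod_le_prod (fun i _ => Pr_nonneg _ _) fun i hi => h _ (hr i hi))

/-! ### Sides of grid polygons -/

/-- `x` lies on the side of the cell `c` with direction `k` (mod 4): 0 bottom, 1 right, 2 top, 3 left -/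
def onCell (X Y : ℤ → ℤ) (c : ℤ × ℤ) (k : ℤ) (x : ℤ × ℤ) : Prop :=
  inB (X c.1) (X (c.1 + 1)) (Y c.2) (Y (c.2 + 1)) x ∧
  (k % 4 = 0 → x.2 = Y c.2) ∧ (k % 4 = 1 → x.1 = X (c.1 + 1)) ∧
  (k % 4 = 2 → x.2 = Y (c.2 + 1)) ∧ (k % 4 = 3 → x.1 = X c.1)

/-- the cell `d` lies beyond the line of the side `(c, k)` -/
def Beyond (c : ℤ × ℤ) (k : ℤ) (d : ℤ × ℤ) : Prop :=
  (k % 4 = 0 ∧ d.2 < c.2) ∨ (k % 4 = 1 ∧ c.1 < d.1) ∨ (k % 4 = 2 ∧ c.2 < d.2) ∨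
    (k % 4 = 3 ∧ d.1 < c.1)

/-- the sup distance of `x` to the cell `d` is larger than `r` -/
def cfar (X Y : ℤ → ℤ) (x : ℤ × ℤ) (d : ℤ × ℤ) (r : ℤ) : Prop :=
  X (d.1 + 1) < x.1 - r ∨ x.1 + r < X d.1 ∨ Y (d.2 + 1) < x.2 - r ∨ x.2 + r < Y d.2

/-- The environment is thin around `x` if the cells beyond the line of the side are far. -/
lemma thin_side {X Y : ℤ → ℤ} (hX : Monotone X) (hY : Monotone Y) {Q : Finset (ℤ × ℤ)}
    {E W : Finset (ℤ × ℤ)} (hE : E ⊆ gs X Y Q) {c : ℤ × ℤ} {k : ℤ} {x : ℤ × ℤ}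
    (hx : onCell X Y c k x) {r : ℤ} (hc : ∀ d ∈ Q, Beyond c k d → cfar X Y x d r)
    (hW : ∀ e ∈ W, e ∉ Bx (x.1 - r) (x.1 + r) (x.2 - r) (x.2 + r)) :
    Thin (Sd k x) E W r := by
  intro e he
  rw [FB_Sd] at he
  refine ⟨fun h1 => ?_, fun h1 => hW e h1 he⟩
  obtain ⟨d, hd, hd'⟩ := mem_gs.1 (hE h1)
  unfold gcell at hd'
  rw [mem_Bx] at hd' he
  obtain ⟨hx0, hx1, hx2, hx3, hx4⟩ := hx
  unfold inB at hx0
  have hb : ¬ Beyond c k d := by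
    intro hb
    have := hc d hd hb
    unfold cfar at this
    omega
  unfold Beyond at hb
  rcases Sd_cases k x with ⟨hk, h⟩ | ⟨hk, h⟩ | ⟨hk, h⟩ | ⟨hk, h⟩ <;> rw [h]
  · rw [HB_B, mem_Bx]
    have h2 := hx1 hk
    have h3 : c.2 ≤ d.2 := by omega
    have h4 := hY h3
    omega
  · rw [HB_R, mem_Bx]
    have h2 := hx2 hk
    have h3 : d.1 + 1 ≤ c.1 + 1 := by omega
    have h4 := hX h3
    omega
  · rw [HB_T, mem_Bx]
    have h2 := hx3 hk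
    have h3 : d.2 + 1 ≤ c.2 + 1 := by omega
    have h4 := hY h3
    omega
  · rw [HB_L, mem_Bx]
    have h2 := hx4 hk
    have h3 : c.1 ≤ d.1 := by omega
    have h4 := hX h3
    omega

/-- The environment is flat around `x` if the half box is contained in the environment. -/
lemma flat_side {X Y : ℤ → ℤ} (hX : Monotone X) (hY : Monotone Y) {Q : Finset (ℤ × ℤ)}
    {E W : Finset (ℤ × ℤ)} (hE : E ⊆ gs X Y Q) {c : ℤ × ℤ} {k : ℤ} {x : ℤ × ℤ}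
    (hx : onCell X Y c k x) {r : ℤ} (hc : ∀ d ∈ Q, Beyond c k d → cfar X Y x d r)
    (hW : ∀ e ∈ W, e ∉ Bx (x.1 - r) (x.1 + r) (x.2 - r) (x.2 + r)) (hB : HB (Sd k x) r ⊆ E) :
    Flat (Sd k x) E W r := ⟨thin_side hX hY hE hx hc hW, hB⟩

/-- The half box of a point in the middle of a side is contained in the cell. -/
lemma HB_sub_cell {X Y : ℤ → ℤ} {c : ℤ × ℤ} {k : ℤ} {x : ℤ × ℤ} (hx : onCell X Y c k x) {r : ℤ}
    (h1 : k % 2 = 0 → (X c.1 ≤ x.1 - r ∧ x.1 + r ≤ X (c.1 + 1)) ∧ r ≤ Y (c.2 + 1) - Y c.2)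
    (h2 : k % 2 = 1 → (Y c.2 ≤ x.2 - r ∧ x.2 + r ≤ Y (c.2 + 1)) ∧ r ≤ X (c.1 + 1) - X c.1) :
    HB (Sd k x) r ⊆ gcell X Y c := by
  obtain ⟨hx0, hx1, hx2, hx3, hx4⟩ := hx
  unfold inB at hx0
  unfold gcell
  rcases Sd_cases k x with ⟨hk, h⟩ | ⟨hk, h⟩ | ⟨hk, h⟩ | ⟨hk, h⟩ <;> rw [h]
  · rw [HB_B]
    have h3 := hx1 hk
    have h4 := h1 (by omega)
    exact Bx_sub (by omega) (by omega) (by omega) (by omega)
  · rw [HB_R]
    have h3 := hx2 hk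
    have h4 := h2 (by omega)
    exact Bx_sub (by omega) (by omega) (by omega) (by omega)
  · rw [HB_T]
    have h3 := hx3 hk
    have h4 := h1 (by omega)
    exact Bx_sub (by omega) (by omega) (by omega) (by omega)
  · rw [HB_L]
    have h3 := hx4 hk
    have h4 := h2 (by omega)
    exact Bx_sub (by omega) (by omega) (by omega) (by omega)

/-- the relation with the orientations of `T2_lower` -/
lemma onSide_Sd {X Y : ℤ → ℤ} {c : ℤ × ℤ} {k : ℤ} {x : ℤ × ℤ} (hx : onCell X Y c k x) {j : ℤ}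
    (h1 : k % 2 = 0 → X c.1 ≤ x.1 - j ∧ x.1 + j ≤ X (c.1 + 1))
    (h2 : k % 2 = 1 → Y c.2 ≤ x.2 - j ∧ x.2 + j ≤ Y (c.2 + 1)) :
    OnSide X Y c j x (Sd k x) := by
  obtain ⟨hx0, hx1, hx2, hx3, hx4⟩ := hx
  unfold OnSide
  rcases Sd_cases k x with ⟨hk, h⟩ | ⟨hk, h⟩ | ⟨hk, h⟩ | ⟨hk, h⟩ <;> rw [h]
  · exact Or.inr (Or.inr (Or.inr ⟨rfl, hx1 hk, h1 (by omega)⟩))
  · exact Or.inl ⟨rfl, hx2 hk, h2 (by omega)⟩
  · exact Or.inr (Or.inr (Or.inl ⟨rfl, hx3 hk, h1 (by omega)⟩))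
  · exact Or.inr (Or.inl ⟨rfl, hx4 hk, h2 (by omega)⟩)

end Pool.Agent.H49.Q1
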