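import Mathlib
import Pool.Agent.H49.Q1.KDist
import Pool.Agent.H49.Perc.KArms

set_option autoImplicit false
open Finset

/-! Half-annulus arms at a flat piece of the boundary, and two disjoint arms around a half box which is
pivotal for the connection of a point to the target. -/

namespace Pool.Agent.H49.Q1

open Pool.Agent.H75.Perc Pool.Agent.H99.NC Pool.Agent.H49.Perc

/-! ### Geometry in the coordinates of the symmetry -/

lemma Co_pull (S : Sy) (ζ : Finset (ℤ × ℤ)) (u v : ℤ × ℤ) :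
    Co (ζ.map (inv S).G) (S.g' u) (S.g' v) ↔ Co ζ u v := (inv S).co_iff ζ u v

lemma G'_add (S : Sy) (u v : ℤ × ℤ) : S.G' (u + v) = S.g' u + S.g' v := by
  have := (inv S).add u v
  exact this.symm

lemma unit_pull (S : Sy) {u v : ℤ × ℤ} (h : IsUnit4 (v - u)) : IsUnit4 (S.g' v - S.g' u) :=
  ((inv S).unit u v).1 h

lemma VB_of_mem {S : Sy} {k : ℤ} {u v : ℤ × ℤ} (h : IsUnit4 (v - u)) (hm : u + v ∈ HB S k) :
    VB S k u ∧ VB S k v := by
  rw [mem_HB, G'_add, mem_Bx] at hm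
  have h1 := unit_cases (unit_pull S h)
  simp only [Prod.fst_add, Prod.snd_add] at hm
  unfold VB inB
  omega

lemma mem_HB_of {S : Sy} {k : ℤ} {u v : ℤ × ℤ} (h : IsUnit4 (v - u)) (hu : VB S k u)
    (hv : VB S k v) : u + v ∈ HB S k := by
  rw [mem_HB, G'_add]
  exact add_mem_Bx (unit_pull S h) hu hv

/-- first exit from the half box, in a flat configuration -/
lemma exitS {S : Sy} {ζ : Finset (ℤ × ℤ)} {k : ℤ} (hf : ∀ e ∈ ζ, e ∈ FB S k → e ∈ HB S k)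
    {u v : ℤ × ℤ} (hu : VB S k u) (hv : ¬ VI S k v) (h : Co ζ u v) :
    ∃ z, (VB S k z ∧ ¬ VI S k z) ∧ Co (ζ ∩ HB S k) u z := by
  by_cases hu' : VI S k u
  · obtain ⟨w, w', hw, hw', had, hcx, -⟩ := exit_co h hu' hv
    have key : ∀ a b : ℤ × ℤ, Ad ζ a b → VI S k a → VB S k b ∧ a + b ∈ ζ ∩ HB S k := by
      intro a b hab ha
      have h6 := unit_cases (unit_pull S hab.1)
      have h7 : a + b ∈ FB S k := by
        rw [mem_FB, G'_add, mem_Bx]
        unfold VI inB at ha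
        simp only [Prod.fst_add, Prod.snd_add]
        omega
      have h8 := hf _ hab.2 h7
      exact ⟨(VB_of_mem hab.1 h8).2, mem_inter.2 ⟨hab.2, h8⟩⟩
    obtain ⟨k1, k2⟩ := key w w' had hw
    refine ⟨w', ⟨k1, hw'⟩, ?_⟩
    refine Relation.ReflTransGen.tail (b := w) ?_ ⟨had.1, k2⟩
    have : ∀ z, CoX ζ (VI S k) u z → Co (ζ ∩ HB S k) u z := by
      intro z hz
      induction hz with
      | refl => exact Co.refl _ _
      | @tail a b hab hbc ih =>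
        exact ih.tail ⟨hbc.1.1, (key a b hbc.1 (CoX.mem hab hu')).2⟩
    exact this w hcx
  · exact ⟨u, ⟨hu, hu'⟩, Co.refl _ _⟩

/-- last exit from the inner half box -/
lemma lastS {S : Sy} {ζ : Finset (ℤ × ℤ)} {m : ℤ} {u v : ℤ × ℤ} (hu : VB S m u) (h : Co ζ u v) :
    ∃ u', VB S m u' ∧ Co (ζ \ HB S m) u' v := by
  induction h with
  | refl => exact ⟨u, hu, Co.refl _ _⟩
  | @tail a b hab hbc ih =>
    obtain ⟨u', hu', hc⟩ := ih
    by_cases hB : a + b ∈ HB S m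
    · exact ⟨b, (VB_of_mem hbc.1 hB).2, Co.refl _ _⟩
    · exact ⟨u', hu', hc.tail ⟨hbc.1, mem_sdiff.2 ⟨hbc.2, hB⟩⟩⟩

/-- An arm in the half annulus between the radii `m` and `l`. -/
def AA (S : Sy) (m l : ℤ) (ω : Finset (ℤ × ℤ)) : Prop :=
  ∃ u v, VB S m u ∧ (VB S l v ∧ ¬ VI S l v) ∧ Co (ω ∩ (HB S l \ HB S m)) u v

lemma AA_inc (S : Sy) (m l : ℤ) : Inc (AA S m l) := by
  rintro ω ω' h ⟨u, v, h1, h2, h3⟩
  exact ⟨u, v, h1, h2, h3.mono (inter_subset_inter_right h)⟩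

lemma AA_inter (S : Sy) (m l : ℤ) (ω : Finset (ℤ × ℤ)) :
    AA S m l (ω ∩ (HB S l \ HB S m)) ↔ AA S m l ω := by
  unfold AA
  rw [inter_assoc, inter_self]

/-- a connection from the inner half box to the outside of the outer one contains an arm -/
lemma AA_of_co {S : Sy} {ζ : Finset (ℤ × ℤ)} {m l : ℤ} (hml : m ≤ l)
    (hf : ∀ e ∈ ζ, e ∈ FB S l → e ∈ HB S l) {u v : ℤ × ℤ} (hu : VB S m u) (hv : ¬ VI S l v)
    (h : Co ζ u v) : AA S m l ζ := by
  obtain ⟨z, hz, hc⟩ := exitS hf (VB_mono S hml hu) hv h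
  obtain ⟨u', hu', hc'⟩ := lastS hu hc
  refine ⟨u', z, hu', hz, hc'.mono ?_⟩
  intro e he
  rw [mem_sdiff, mem_inter] at he
  rw [mem_inter, mem_sdiff]
  exact ⟨he.1.1, he.1.2, he.2⟩

lemma Pr_AA_HB (S : Sy) {j l : ℕ} (hj : 1 ≤ j) (hl : 4 * j ≤ l) :
    1 / 2 ^ 77 * (ph (4 * j) * Pr (HB S l) (AA S j l)) ≤ ph l := by
  have hF : Flat S (HB S l) ∅ l := ⟨fun e _ => ⟨fun h => h, notMem_empty _⟩, subset_refl _⟩
  have hF' : Flat S (HB S l) ∅ (4 * j) := hF.mono_k (by exact_mod_cast hl)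
  have h1 := qm_lower hj hF' (J := fun v => ¬ VI S l v) (by
    intro v hv hv'
    apply hv
    unfold VI inB at hv' ⊢
    omega)
  have h2 : Pr (HB S l) (CJ ∅ (fun v => ¬ VI S l v) (S.g (0, 0))) ≤ ph l := by
    rw [← Pr_AS_HB S (by omega : (0 : ℤ) ≤ l)]
    exact Pr_mono fun ω hω h => h.arm (by omega) hF.1 (fun v hv => hv) hω
  have h3 : Pr (HB S l) (AA S j l) ≤
      Pr (HB S l) (CJ (∅ ∪ HB S j) (fun v => ¬ VI S l v) (S.g (0, 0))) := by
    apply Pr_mono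
    rintro ω _ ⟨u, v, hu, hv, hc⟩
    refine ⟨v, hv.2, ?_⟩
    have h4 : Co (ω ∪ (∅ ∪ HB S j)) (S.g (0, 0)) u :=
      (HB_conn (VB_center S (by omega)) hu).mono (subset_union_right.trans subset_union_right)
    exact h4.trans (hc.mono (inter_subset_left.trans subset_union_left))
  have n1 : 0 ≤ ph (4 * j) := Pr_nonneg _ _
  exact (mul_le_mul_of_nonneg_left (mul_le_mul_of_nonneg_left h3 n1) (by positivity)).trans
    (h1.trans h2)

lemma Pr_AA_E (S : Sy) (m l : ℤ) (E : Finset (ℤ × ℤ)) :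
    Pr E (AA S m l) ≤ Pr (HB S l) (AA S m l) := by
  have h1 : Pr E (AA S m l) ≤ Pr (E ∪ HB S l) (AA S m l) := Pr_inc subset_union_left (AA_inc S m l)
  have h2 : Pr (E ∪ HB S l) (AA S m l) = Pr (HB S l) (AA S m l) := by
    rw [← Pr_restrict (E := E ∪ HB S l) subset_union_right (AA S m l)]
    apply Pr_congr
    intro ω _
    rw [← AA_inter S m l ω, ← AA_inter S m l (ω ∩ HB S l)]
    have : ω ∩ HB S l ∩ (HB S l \ HB S m) = ω ∩ (HB S l \ HB S m) := by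
      ext e
      simp only [mem_inter, mem_sdiff]
      tauto
    rw [this]
  rw [← h2]
  exact h1

/-- **The half-annulus arm** has probability at most `C (m / l) ^ (1 / 3)`, in every environment. -/
theorem Pr_AA_le : ∃ C : ℝ, 1 ≤ C ∧ ∀ (S : Sy) (E : Finset (ℤ × ℤ)) (m l : ℤ), 1 ≤ m → m ≤ l →
    Pr E (AA S m l) ≤ C * ((m : ℝ) / l) ^ (1 / 3 : ℝ) := by
  obtain ⟨C, hC, h1⟩ := ph_upper
  obtain ⟨c, hc, hc1, h2⟩ := ph_lower
  have h4 : (1 : ℝ) ≤ 4 ^ (1 / 3 : ℝ) := Real.one_le_rpow (by norm_num) (by norm_num)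
  refine ⟨2 ^ 77 * (C / c) * 4 ^ (1 / 3 : ℝ), ?_, fun S E m l hm hml => ?_⟩
  · have h3 : 1 ≤ C / c := by rw [le_div_iff₀ hc]; linarith
    have h5 : (1 : ℝ) ≤ 2 ^ 77 := by norm_num
    calc (1 : ℝ) = 1 * 1 * 1 := by ring
      _ ≤ 2 ^ 77 * (C / c) * 4 ^ (1 / 3 : ℝ) := by
        refine mul_le_mul (mul_le_mul h5 h3 (by norm_num) (by norm_num)) h4 (by norm_num)
          (by positivity)
  · have hm' : (1 : ℝ) ≤ m := by exact_mod_cast hm
    have hl' : (m : ℝ) ≤ l := by exact_mod_cast hml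
    obtain ⟨j, rfl⟩ : ∃ j : ℕ, m = j := ⟨m.toNat, by omega⟩
    obtain ⟨n, rfl⟩ : ∃ n : ℕ, l = n := ⟨l.toNat, by omega⟩
    simp only [Int.cast_natCast] at hm' hl' ⊢
    have h3 : 1 ≤ C / c := by rw [le_div_iff₀ hc]; linarith
    have hn0 : (0 : ℝ) < n := by linarith
    have hdiv : ((j : ℝ) / n) ^ (1 / 3 : ℝ) = (j : ℝ) ^ (1 / 3 : ℝ) * (n : ℝ) ^ (-(1 / 3) : ℝ) := by
      rw [Real.div_rpow (by linarith) (by linarith), Real.rpow_neg (by linarith), div_eq_mul_inv]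
    rcases Nat.lt_or_ge n (4 * j) with hlt | hge
    · -- trivial bound
      have h5 : Pr E (AA S j n) ≤ 1 := Pr_le_one _ _
      have h6 : (n : ℝ) ≤ 4 * j := by exact_mod_cast hlt.le
      have h7 : (1 : ℝ) ≤ 4 ^ (1 / 3 : ℝ) * ((j : ℝ) / n) ^ (1 / 3 : ℝ) := by
        rw [← Real.mul_rpow (by norm_num) (by positivity)]
        apply Real.one_le_rpow _ (by norm_num)
        rw [mul_div_assoc', le_div_iff₀ hn0]
        linarith
      have h8 : (1 : ℝ) ≤ 2 ^ 77 * (C / c) := by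
        calc (1 : ℝ) = 1 * 1 := by ring
          _ ≤ _ := mul_le_mul (by norm_num) h3 (by norm_num) (by norm_num)
      calc Pr E (AA S j n) ≤ 1 := h5
        _ = 1 * 1 := by ring
        _ ≤ (2 ^ 77 * (C / c)) * (4 ^ (1 / 3 : ℝ) * ((j : ℝ) / n) ^ (1 / 3 : ℝ)) :=
          mul_le_mul h8 h7 (by norm_num) (by positivity)
        _ = _ := by ring
    · have h5 := Pr_AA_HB S (j := j) (l := n) (by omega) hge
      have h6 := h1 n (by omega)
      have h7 := h2 (4 * j) (by omega)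
      push_cast at h6 h7
      have h8 : (4 * (j : ℝ)) ^ (-(1 / 3) : ℝ) = (4 ^ (1 / 3 : ℝ))⁻¹ * ((j : ℝ) ^ (1 / 3 : ℝ))⁻¹ := by
        rw [Real.rpow_neg (by positivity), Real.mul_rpow (by norm_num) (by linarith), mul_inv]
      have hj3 : 0 < (j : ℝ) ^ (1 / 3 : ℝ) := Real.rpow_pos_of_pos (by linarith) _
      have h43 : (0 : ℝ) < 4 ^ (1 / 3 : ℝ) := by linarith
      have hP := Pr_nonneg (HB S n) (AA S j n)
      have h9 : 1 / 2 ^ 77 * ((c * ((4 ^ (1 / 3 : ℝ))⁻¹ * ((j : ℝ) ^ (1 / 3 : ℝ))⁻¹)) *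
          Pr (HB S n) (AA S j n)) ≤ C * (n : ℝ) ^ (-(1 / 3) : ℝ) := by
        rw [h8] at h7
        exact ((mul_le_mul_of_nonneg_left (mul_le_mul_of_nonneg_right h7 hP)
          (by positivity)).trans h5).trans h6
      refine (Pr_AA_E S j n E).trans ?_
      rw [hdiv]
      have h10 : Pr (HB S n) (AA S j n) = (2 ^ 77 * (1 / c) * 4 ^ (1 / 3 : ℝ) *
          (j : ℝ) ^ (1 / 3 : ℝ)) * (1 / 2 ^ 77 * ((c * ((4 ^ (1 / 3 : ℝ))⁻¹ *
          ((j : ℝ) ^ (1 / 3 : ℝ))⁻¹)) * Pr (HB S n) (AA S j n))) := by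
        field_simp
      rw [h10]
      refine (mul_le_mul_of_nonneg_left h9 (by positivity)).trans (le_of_eq ?_)
      ring

/-! ### Two disjoint arms from a pivotal set -/

/-- a label determines its edge -/
lemma label_inj {u v u' v' : ℤ × ℤ} (h : IsUnit4 (v - u)) (h' : IsUnit4 (v' - u'))
    (he : u + v = u' + v') : (u = u' ∧ v = v') ∨ (u = v' ∧ v = u') := by
  have h1 := unit_cases h
  have h2 := unit_cases h'
  have e1 := congrArg Prod.fst he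
  have e2 := congrArg Prod.snd he
  simp only [Prod.fst_add, Prod.snd_add] at e1 e2
  have : (u.1 = u'.1 ∧ u.2 = u'.2 ∧ v.1 = v'.1 ∧ v.2 = v'.2) ∨
      (u.1 = v'.1 ∧ u.2 = v'.2 ∧ v.1 = u'.1 ∧ v.2 = u'.2) := by omega
  rcases this with ⟨a, b, c, d⟩ | ⟨a, b, c, d⟩
  · exact Or.inl ⟨Prod.ext a b, Prod.ext c d⟩
  · exact Or.inr ⟨Prod.ext a b, Prod.ext c d⟩

open Classical in
/-- the labels of the cluster of `x` -/
noncomputable def clu (ζ : Finset (ℤ × ℤ)) (x : ℤ × ℤ) : Finset (ℤ × ℤ) :=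
  ζ.filter (fun l => ∃ u v : ℤ × ℤ, l = u + v ∧ IsUnit4 (v - u) ∧ Co ζ x u)

lemma clu_sub (ζ : Finset (ℤ × ℤ)) (x : ℤ × ℤ) : clu ζ x ⊆ ζ := by
  classical
  exact filter_subset _ _

lemma mem_clu {ζ : Finset (ℤ × ℤ)} {x l : ℤ × ℤ} :
    l ∈ clu ζ x ↔ l ∈ ζ ∧ ∃ u v : ℤ × ℤ, l = u + v ∧ IsUnit4 (v - u) ∧ Co ζ x u := by
  classical
  unfold clu
  rw [mem_filter]

lemma clu_co {ζ : Finset (ℤ × ℤ)} {x y : ℤ × ℤ} (h : Co ζ x y) : Co (clu ζ x) x y := by
  induction h with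
  | refl => exact Co.refl _ _
  | @tail a b hab hbc ih =>
    exact ih.tail ⟨hbc.1, mem_clu.2 ⟨hbc.2, a, b, rfl, hbc.1, hab⟩⟩

lemma clu_disj {ζ : Finset (ℤ × ℤ)} {x y : ℤ × ℤ} (h : ¬ Co ζ x y) :
    Disjoint (clu ζ x) (clu ζ y) := by
  rw [disjoint_left]
  intro l hl hl'
  obtain ⟨h0, u, v, h1, h2, h3⟩ := mem_clu.1 hl
  obtain ⟨-, u', v', h1', h2', h3'⟩ := mem_clu.1 hl'
  have huv : Ad ζ u v := ⟨h2, by rw [← h1]; exact h0⟩
  rcases label_inj h2 h2' (h1.symm.trans h1') with ⟨e1, e2⟩ | ⟨e1, e2⟩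
  · subst e1
    exact h (h3.trans h3'.symm)
  · subst e2
    exact h ((h3.tail huv).trans h3'.symm)

/-- one label is pivotal -/
lemma exists_piv {B ζ : Finset (ℤ × ℤ)} {A : Finset (ℤ × ℤ) → Prop} (h1 : A ζ)
    (h2 : ¬ A (ζ \ B)) : ∃ η e, ζ \ B ⊆ η ∧ η ⊆ ζ ∧ e ∈ B ∧ e ∈ η ∧ A η ∧ ¬ A (η.erase e) := by
  classical
  induction hn : (ζ ∩ B).card using Nat.strong_induction_on generalizing ζ with
  | _ n ih =>
    subst hn
    have hne : (ζ ∩ B).Nonempty := by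
      by_contra hemp
      rw [not_nonempty_iff_eq_empty] at hemp
      apply h2
      have : ζ \ B = ζ := by
        rw [Finset.sdiff_eq_self_iff_disjoint, disjoint_iff_inter_eq_empty]
        exact hemp
      rwa [this]
    obtain ⟨e, he⟩ := hne
    rw [mem_inter] at he
    by_cases hA : A (ζ.erase e)
    · have h3 : ζ.erase e \ B = ζ \ B := by
        ext x
        simp only [mem_sdiff, mem_erase]
        constructor
        · rintro ⟨⟨_, h⟩, h'⟩; exact ⟨h, h'⟩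
        · rintro ⟨h, h'⟩
          exact ⟨⟨fun hx => h' (hx ▸ he.2), h⟩, h'⟩
      have hlt : (ζ.erase e ∩ B).card < (ζ ∩ B).card := by
        apply card_lt_card
        refine ⟨inter_subset_inter_right (erase_subset _ _), fun hss => ?_⟩
        have := hss (mem_inter.2 he)
        exact notMem_erase e ζ (mem_inter.1 this).1
      obtain ⟨η, e', k1, k2, k3, k4, k5, k6⟩ := ih _ hlt hA (by rw [h3]; exact h2) rfl
      exact ⟨η, e', by rw [← h3]; exact k1, k2.trans (erase_subset _ _), k3, k4, k5, k6⟩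
    · exact ⟨ζ, e, sdiff_subset, subset_refl _, he.2, he.1, h1, hA⟩

/-- first use of the label `e` -/
lemma use_label {η : Finset (ℤ × ℤ)} {e x v : ℤ × ℤ} (h : Co η x v) (hn : ¬ Co (η.erase e) x v) :
    ∃ a b, a + b = e ∧ IsUnit4 (b - a) ∧ Co (η.erase e) x a ∧ Co (η.erase e) b v := by
  have key : ∀ w, Co η x w → Co (η.erase e) x w ∨
      ∃ a b, a + b = e ∧ IsUnit4 (b - a) ∧ Co (η.erase e) x a ∧ Co (η.erase e) b w := by
    intro w hw
    induction hw with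
    | refl => exact Or.inl (Co.refl _ _)
    | @tail p q hpq hqr ih =>
      by_cases hq : p + q = e
      · rcases ih with h1 | ⟨a, b, h1, h2, h3, h4⟩
        · exact Or.inr ⟨p, q, hq, hqr.1, h1, Co.refl _ _⟩
        · -- the edge is used again
          rcases label_inj h2 hqr.1 (h1.trans hq.symm) with ⟨e1, e2⟩ | ⟨e1, e2⟩
          · rw [e2] at h4
            exact Or.inr ⟨a, b, h1, h2, h3, by rw [e2]; exact Co.refl _ _⟩
          · left
            rw [← e1]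
            exact h3
      · have had : Ad (η.erase e) p q := ⟨hqr.1, mem_erase.2 ⟨hq, hqr.2⟩⟩
        rcases ih with h1 | ⟨a, b, h1, h2, h3, h4⟩
        · exact Or.inl (h1.tail had)
        · exact Or.inr ⟨a, b, h1, h2, h3, h4.tail had⟩
  rcases key v h with h1 | h1
  · exact absurd h1 hn
  · exact h1

/-- **Two disjoint connections** from a set of labels which is pivotal for `x ↔ J`. -/
theorem pivot_two {B W ω : Finset (ℤ × ℤ)} {J : ℤ × ℤ → Prop} {x : ℤ × ℤ}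
    (h1 : CJ W J x ω) (h2 : ¬ CJ W J x (ω \ B)) :
    ∃ (a b v : ℤ × ℤ) (S T : Finset (ℤ × ℤ)), a + b ∈ B ∧ IsUnit4 (b - a) ∧ J v ∧
      S ⊆ ω ∪ W ∧ T ⊆ ω ∪ W ∧ Disjoint S T ∧ Co S a x ∧ Co T b v := by
  have hA : (fun ζ => ∃ v, J v ∧ Co ζ x v) (ω ∪ W) := h1
  have hB : ¬ (fun ζ => ∃ v, J v ∧ Co ζ x v) ((ω ∪ W) \ B) := by
    rintro ⟨v, hv, hc⟩
    apply h2
    refine ⟨v, hv, hc.mono ?_⟩
    intro e he
    rw [mem_sdiff, mem_union] at he
    rw [mem_union, mem_sdiff]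
    tauto
  obtain ⟨η, e, k1, k2, k3, k4, ⟨v, hv, k5⟩, k6⟩ :=
    exists_piv (A := fun ζ => ∃ v, J v ∧ Co ζ x v) hA hB
  have k7 : ¬ Co (η.erase e) x v := fun h => k6 ⟨v, hv, h⟩
  obtain ⟨a, b, hab, hu, ha, hb⟩ := use_label k5 k7
  refine ⟨a, b, v, clu (η.erase e) x, clu (η.erase e) v, by rw [hab]; exact k3, hu, hv, ?_, ?_,
    clu_disj k7, ?_, ?_⟩
  · exact (clu_sub _ _).trans ((erase_subset _ _).trans k2)
  · exact (clu_sub _ _).trans ((erase_subset _ _).trans k2)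
  · exact (clu_co ha).symm
  · exact (clu_co hb.symm).symm

/-- The half box of radius `m` is pivotal for `x ↔ J`: two disjoint arms in the half annulus. -/
lemma piv_arms {S : Sy} {m l : ℤ} (hm : 0 ≤ m) (hml : m ≤ l) {E W : Finset (ℤ × ℤ)}
    (hT : Thin S E W l) {J : ℤ × ℤ → Prop} (hJ : ∀ v, J v → ¬ VI S l v) {x : ℤ × ℤ}
    (hx : ¬ VI S l x) {ω : Finset (ℤ × ℤ)} (hω : ω ⊆ E) (h1 : CJ W J x ω)
    (h2 : ¬ CJ W J x (ω \ HB S m)) : Arms 2 (AA S m l) (ω ∩ (HB S l \ HB S m)) := by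
  have hl : 0 ≤ l := hm.trans hml
  obtain ⟨a, b, v, P, Q, hab, hu, hv, hP, hQ, hd, hPa, hQb⟩ := pivot_two h1 h2
  obtain ⟨ha, hb⟩ := VB_of_mem hu hab
  have hf : ∀ R : Finset (ℤ × ℤ), R ⊆ ω ∪ W → ∀ e ∈ R, e ∈ FB S l → e ∈ HB S l := by
    intro R hR e he heF
    have := hT e heF
    rcases mem_union.1 (hR he) with h3 | h3
    · exact this.1 (hω h3)
    · exact absurd h3 this.2
  have g1 : AA S m l P := AA_of_co hml (hf P hP) ha hx hPa
  have g2 : AA S m l Q := AA_of_co hml (hf Q hQ) hb (hJ v hv) hQb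
  have hsub : ∀ R : Finset (ℤ × ℤ), R ⊆ ω ∪ W →
      R ∩ (HB S l \ HB S m) ⊆ ω ∩ (HB S l \ HB S m) := by
    intro R hR e he
    rw [mem_inter, mem_sdiff] at he
    rw [mem_inter, mem_sdiff]
    refine ⟨?_, he.2⟩
    rcases mem_union.1 (hR he.1) with h3 | h3
    · exact h3
    · exact absurd h3 (hT e (HB_sub_FB S hl he.2.1)).2
  refine ⟨fun i => if i = 0 then P ∩ (HB S l \ HB S m) else Q ∩ (HB S l \ HB S m), ?_, ?_, ?_⟩
  · intro i
    by_cases hi : i = 0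
    · simp only [hi, if_true]; exact hsub P hP
    · simp only [hi, if_false]; exact hsub Q hQ
  · have hd' : Disjoint (P ∩ (HB S l \ HB S m)) (Q ∩ (HB S l \ HB S m)) :=
      hd.mono inter_subset_left inter_subset_left
    intro i j hij
    by_cases hi : i = 0 <;> by_cases hj : j = 0
    · exact absurd (hi.trans hj.symm) hij
    · simp only [hi, hj, if_true, if_false]; exact hd'
    · simp only [hi, hj, if_true, if_false]; exact hd'.symm
    · exfalso; apply hij; ext; omega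
  · intro i
    by_cases hi : i = 0
    · simp only [hi, if_true]; exact (AA_inter S m l P).2 g1
    · simp only [hi, if_false]; exact (AA_inter S m l Q).2 g2

/-- Two disjoint half-annulus arms. -/
theorem Pr_AA2_le : ∃ C : ℝ, 1 ≤ C ∧ ∀ (S : Sy) (E : Finset (ℤ × ℤ)) (m l : ℤ), 1 ≤ m → m ≤ l →
    Pr E (Arms 2 (AA S m l)) ≤ C * ((m : ℝ) / l) ^ (2 / 3 : ℝ) := by
  obtain ⟨C, hC, h⟩ := Pr_AA_le
  refine ⟨C ^ 2, one_le_pow₀ hC, fun S E m l hm hml => ?_⟩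
  have hm' : (1 : ℝ) ≤ m := by exact_mod_cast hm
  have hl' : (m : ℝ) ≤ l := by exact_mod_cast hml
  have h0 : (0 : ℝ) ≤ (m : ℝ) / l := div_nonneg (by linarith) (by linarith)
  refine (Pr_Arms_le E (AA_inc S m l) 2).trans ?_
  refine (pow_le_pow_left₀ (Pr_nonneg _ _) (h S E m l hm hml) 2).trans (le_of_eq ?_)
  rw [mul_pow, ← Real.rpow_natCast (((m : ℝ) / l) ^ (1 / 3 : ℝ)) 2, ← Real.rpow_mul h0]
  norm_num

/-- **`k` points and one pivotal half box (C1'').** -/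
theorem kpoint_piv : ∃ C : ℝ, 1 ≤ C ∧ ∀ {ι : Type} (s : Finset ι) (S : ι → Sy) (k : ι → ℤ)
    (_ : ∀ i ∈ s, 0 ≤ k i) {E W : Finset (ℤ × ℤ)} (_ : ∀ i ∈ s, Thin (S i) E W (k i))
    (_ : ∀ i ∈ s, ∀ j ∈ s, i ≠ j → Disjoint (HB (S i) (k i)) (HB (S j) (k j)))
    (J : ι → ℤ × ℤ → Prop) (_ : ∀ i ∈ s, ∀ v, J i v → ¬ VI (S i) (k i) v)
    (S0 : Sy) (m l : ℤ) (_ : 1 ≤ m) (_ : m ≤ l) (_ : Thin S0 E W l)
    (_ : ∀ i ∈ s, Disjoint (HB (S i) (k i)) (HB S0 l \ HB S0 m))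
    (J0 : ℤ × ℤ → Prop) (_ : ∀ v, J0 v → ¬ VI S0 l v) (x0 : ℤ × ℤ) (_ : ¬ VI S0 l x0),
    Pr E (fun ω => (∀ i ∈ s, CJ W (J i) ((S i).g (0, 0)) ω) ∧ CJ W J0 x0 ω ∧
      ¬ CJ W J0 x0 (ω \ HB S0 m)) ≤
      C * ((m : ℝ) / l) ^ (2 / 3 : ℝ) * ∏ i ∈ s, ph (k i) := by
  classical
  obtain ⟨C, hC, h⟩ := Pr_AA2_le
  refine ⟨C, hC, fun {ι} s S k hk {E W} hT hd J hJ S0 m l hm hml hT0 hd0 J0 hJ0 x0 hx0 => ?_⟩
  set F : Option ι → Finset (ℤ × ℤ) := fun o => match o with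
    | none => HB S0 l \ HB S0 m
    | some i => HB (S i) (k i) with hF
  set A : Option ι → Finset (ℤ × ℤ) → Prop := fun o => match o with
    | none => Arms 2 (AA S0 m l)
    | some i => AS (S i) (k i) with hA
  set p : Option ι → ℝ := fun o => match o with
    | none => C * ((m : ℝ) / l) ^ (2 / 3 : ℝ)
    | some i => ph (k i) with hp
  have h1 := Pr_prod_le (insertNone s) F ?_ A p ?_ (fun _ => True) E
  · rw [Pr_true, mul_one, prod_insertNone] at h1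
    refine le_trans (Pr_mono ?_) h1
    rintro ω hω ⟨g1, g2, g3⟩
    refine ⟨fun o ho => ?_, trivial⟩
    rcases o with _ | i
    · exact piv_arms (by omega) hml hT0 hJ0 hx0 hω g2 g3
    · rw [some_mem_insertNone] at ho
      change AS (S i) (k i) (ω ∩ HB (S i) (k i))
      rw [AS_inter]
      exact (g1 i ho).arm (hk i ho) (hT i ho) (hJ i ho) hω
  · intro o ho o' ho' hne
    rcases o with _ | i <;> rcases o' with _ | j
    · exact absurd rfl hne
    · rw [some_mem_insertNone] at ho'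
      exact (hd0 j ho').symm
    · rw [some_mem_insertNone] at ho
      exact hd0 i ho
    · rw [some_mem_insertNone] at ho ho'
      exact hd i ho j ho' (fun h => hne (by rw [h]))
  · intro o ho E'
    rcases o with _ | i
    · exact h S0 E' m l hm hml
    · rw [some_mem_insertNone] at ho
      exact Pr_AS_le (hk i ho) E'

end Pool.Agent.H49.Q1
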