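import Mathlib
import Pool.Agent.H49.Q1.Pivot

set_option autoImplicit false
open Finset

/-! M5, C2, statement NH: `k` boundary points are connected to the target, but one of them would lose
its connection if the labels of a small set near another one were closed. -/

namespace Pool.Agent.H49.Q1

open Pool.Agent.H75.Perc Pool.Agent.H99.NC Pool.Agent.H49.Perc

/-- the half boxes of radius `l` of far points are disjoint -/
lemma HB_disj' {k k' : ℤ} {x y : ℤ × ℤ} {l : ℤ} (hl : 0 ≤ l) (h : far x y (2 * l + 1)) :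
    Disjoint (HB (Sd k x) l) (HB (Sd k' y) l) := by
  have h1 := HB_disj (k := k) (k' := k') (by omega : (1 : ℤ) ≤ 2 * l + 1)
    (by omega : (1 : ℤ) ≤ 2 * l + 1) h h
  rwa [show (2 * l + 1 - 1) / 2 = l by omega] at h1

/-- **NH (C1'' for `k` points).** All points `x i` are connected to `J`, and the connection of `x0`
to `J` needs the labels of `B`, a subset of the half box of radius `m` around `x i0`. -/
theorem nh : ∃ C : ℝ, 1 ≤ C ∧ ∀ {ι : Type} (s : Finset ι) (x : ι → ℤ × ℤ) (k : ι → ℤ) (i0 : ι)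
    (_ : i0 ∈ s) (m l : ℤ) (_ : 1 ≤ m) (_ : m ≤ l) {E W : Finset (ℤ × ℤ)}
    (_ : ∀ i ∈ s, Thin (Sd (k i) (x i)) E W l)
    (_ : ∀ i ∈ s, ∀ j ∈ s, i ≠ j → far (x i) (x j) (2 * l + 1))
    (J : ℤ × ℤ → Prop) (_ : ∀ i ∈ s, ∀ v, J v → far (x i) v l)
    (x0 : ℤ × ℤ) (_ : far (x i0) x0 l) (B : Finset (ℤ × ℤ)) (_ : B ⊆ HB (Sd (k i0) (x i0)) m),
    Pr E (fun ω => (∀ i ∈ s, CJ W J (x i) ω) ∧ CJ W J x0 ω ∧ ¬ CJ W J x0 (ω \ B)) ≤
      C ^ (s.card + 1) * ((m : ℝ) / l) ^ (1 / 3 : ℝ) * ((l : ℝ) ^ (-(1 / 3) : ℝ)) ^ s.card := by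
  classical
  obtain ⟨C1, hC1, h1⟩ := kpoint_piv
  obtain ⟨C2, hC2, h2⟩ := ph_upper
  refine ⟨max C1 C2, hC1.trans (le_max_left _ _), ?_⟩
  intro ι s x k i0 hi0 m l hm hml E W hT hd J hJ x0 hx0 B hB
  have hl : 1 ≤ l := hm.trans hml
  have hm' : (1 : ℝ) ≤ m := by exact_mod_cast hm
  have hl' : (1 : ℝ) ≤ l := by exact_mod_cast hl
  set r : ι → ℤ := fun i => if i = i0 then m else l with hr
  have hrl : ∀ i, r i ≤ l := by
    intro i
    simp only [hr]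
    split_ifs
    · exact hml
    · exact le_rfl
  have hr1 : ∀ i, 1 ≤ r i := by
    intro i
    simp only [hr]
    split_ifs
    · exact hm
    · exact hl
  have g := h1 s (fun i => Sd (k i) (x i)) r (fun i _ => by have := hr1 i; omega) (E := E) (W := W)
    (fun i hi => (hT i hi).mono_k (hrl i))
    (fun i hi j hj hij => (HB_disj' (by omega) (hd i hi j hj hij)).mono (HB_mono _ (hrl i))
      (HB_mono _ (hrl j)))
    (fun _ => J)
    (fun i hi v hv hv' => VI_far hv' (far_mono (hrl i) (hJ i hi v hv)))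
    (Sd (k i0) (x i0)) m l hm hml (hT i0 hi0) ?_ J
    (fun v hv hv' => VI_far hv' (hJ i0 hi0 v hv)) x0 (fun hv' => VI_far hv' hx0)
  · simp only [Sd_g] at g
    have g1 : Pr E (fun ω => (∀ i ∈ s, CJ W J (x i) ω) ∧ CJ W J x0 ω ∧ ¬ CJ W J x0 (ω \ B)) ≤
        C1 * ((m : ℝ) / l) ^ (2 / 3 : ℝ) * ∏ i ∈ s, ph (r i) := by
      refine le_trans (Pr_mono ?_) g
      rintro ω _ ⟨a1, a2, a3⟩
      exact ⟨a1, a2, fun h => a3 (CJ_inc W J x0 _ _ (sdiff_subset_sdiff (subset_refl _) hB) h)⟩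
    refine g1.trans ?_
    set C := max C1 C2 with hC
    have hC0 : 1 ≤ C := hC1.trans (le_max_left _ _)
    have g2 : ∏ i ∈ s, ph (r i) ≤ (C * (m : ℝ) ^ (-(1 / 3) : ℝ)) *
        (C * (l : ℝ) ^ (-(1 / 3) : ℝ)) ^ (s.card - 1) := by
      rw [← mul_prod_erase s _ hi0, ← card_erase_of_mem hi0, ← prod_const]
      apply mul_le_mul
      · simp only [hr, if_true]
        exact (h2 m hm).trans (mul_le_mul_of_nonneg_right (le_max_right _ _) (by positivity))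
      · apply prod_le_prod (fun i _ => Pr_nonneg _ _)
        intro i hi
        have hne : i ≠ i0 := (mem_erase.1 hi).1
        simp only [hr, if_neg hne]
        exact (h2 l hl).trans (mul_le_mul_of_nonneg_right (le_max_right _ _) (by positivity))
      · exact prod_nonneg fun i _ => Pr_nonneg _ _
      · positivity
    have hcard : s.card = (s.card - 1) + 1 := by
      have := card_pos.2 ⟨i0, hi0⟩
      omega
    have hml0 : (0 : ℝ) < (m : ℝ) / l := by positivity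
    have g3 : ((m : ℝ) / l) ^ (2 / 3 : ℝ) * (m : ℝ) ^ (-(1 / 3) : ℝ) =
        ((m : ℝ) / l) ^ (1 / 3 : ℝ) * (l : ℝ) ^ (-(1 / 3) : ℝ) := by
      have e1 : ((m : ℝ) / l) ^ (2 / 3 : ℝ) = ((m : ℝ) / l) ^ (1 / 3 : ℝ) *
          ((m : ℝ) / l) ^ (1 / 3 : ℝ) := by
        rw [← Real.rpow_add hml0]; norm_num
      have e2 : ((m : ℝ) / l) ^ (1 / 3 : ℝ) = (m : ℝ) ^ (1 / 3 : ℝ) * (l : ℝ) ^ (-(1 / 3) : ℝ) := by
        rw [Real.div_rpow (by linarith) (by linarith), Real.rpow_neg (by linarith),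
          div_eq_mul_inv]
      have e3 : (m : ℝ) ^ (1 / 3 : ℝ) * (m : ℝ) ^ (-(1 / 3) : ℝ) = 1 := by
        rw [← Real.rpow_add (by linarith)]; norm_num
      calc _ = ((m : ℝ) / l) ^ (1 / 3 : ℝ) * (((m : ℝ) / l) ^ (1 / 3 : ℝ) *
          (m : ℝ) ^ (-(1 / 3) : ℝ)) := by rw [e1]; ring
        _ = ((m : ℝ) / l) ^ (1 / 3 : ℝ) * ((m : ℝ) ^ (1 / 3 : ℝ) * (m : ℝ) ^ (-(1 / 3) : ℝ) *
          (l : ℝ) ^ (-(1 / 3) : ℝ)) := by rw [e2]; ring
        _ = _ := by rw [e3, one_mul]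
    have n1 : 0 ≤ ∏ i ∈ s, ph (r i) := prod_nonneg fun i _ => Pr_nonneg _ _
    calc C1 * ((m : ℝ) / l) ^ (2 / 3 : ℝ) * ∏ i ∈ s, ph (r i)
        ≤ C * ((m : ℝ) / l) ^ (2 / 3 : ℝ) * ((C * (m : ℝ) ^ (-(1 / 3) : ℝ)) *
          (C * (l : ℝ) ^ (-(1 / 3) : ℝ)) ^ (s.card - 1)) :=
          mul_le_mul (mul_le_mul_of_nonneg_right (le_max_left _ _) (by positivity)) g2 n1
            (by positivity)
      _ = C * C * C ^ (s.card - 1) * (((m : ℝ) / l) ^ (2 / 3 : ℝ) * (m : ℝ) ^ (-(1 / 3) : ℝ)) *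
          ((l : ℝ) ^ (-(1 / 3) : ℝ)) ^ (s.card - 1) := by
        rw [mul_pow]; ring
      _ = C * C * C ^ (s.card - 1) * ((m : ℝ) / l) ^ (1 / 3 : ℝ) *
          ((l : ℝ) ^ (-(1 / 3) : ℝ) * ((l : ℝ) ^ (-(1 / 3) : ℝ)) ^ (s.card - 1)) := by
        rw [g3]; ring
      _ = C ^ (s.card + 1) * ((m : ℝ) / l) ^ (1 / 3 : ℝ) *
          ((l : ℝ) ^ (-(1 / 3) : ℝ)) ^ s.card := by
        have e4 : C * C * C ^ (s.card - 1) = C ^ (s.card + 1) := by
          conv_rhs => rw [hcard]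
          ring
        have e5 : (l : ℝ) ^ (-(1 / 3) : ℝ) * ((l : ℝ) ^ (-(1 / 3) : ℝ)) ^ (s.card - 1) =
            ((l : ℝ) ^ (-(1 / 3) : ℝ)) ^ s.card := by
          conv_rhs => rw [hcard]
          ring
        rw [e4, e5]
  · intro i hi
    by_cases h : i = i0
    · subst h
      simp only [hr, if_true]
      exact disjoint_sdiff
    · have h3 : r i = l := by simp only [hr, if_neg h]
      rw [h3]
      exact (HB_disj' (by omega) (hd i hi i0 hi0 h)).mono_right sdiff_subset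

end Pool.Agent.H49.Q1
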