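import Mathlib
import Pool.Agent.H49.Q1.NH
import Pool.Agent.H52.Q1.SideEv

set_option autoImplicit false
open Finset Filter Topology

/-! M5, C2, statement NH for types: the `k`-point function with one point whose hull misses a small
box around another point. -/

namespace Pool.Agent.H49.Q1

open Pool.Agent.H75.Perc hiding WL hh
open Pool.Agent.H99.NC Pool.Agent.Q1.M4 Pool.Agent.Q1.M5 Pool.Agent.H52.Q1

/-- The labels which belong only to cells of `K` lie in the half box. -/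
lemma LK_sub_HB {k : ℤ} {v : ℤ × ℤ} {m : ℤ} {E W : Finset (ℤ × ℤ)} {X Y : ℤ → ℤ}
    {Q K : Finset Cell} (hE : E ⊆ gs X Y Q) (hT : Thin (Sd k v) E W m)
    (hK : ∀ c ∈ K, (v.1 - m ≤ X c.1 ∧ X (c.1 + 1) ≤ v.1 + m) ∧
      (v.2 - m ≤ Y c.2 ∧ Y (c.2 + 1) ≤ v.2 + m)) :
    E \ gs X Y (Q \ K) ⊆ HB (Sd k v) m := by
  intro e he
  rw [Finset.mem_sdiff] at he
  obtain ⟨c, hc, hc'⟩ := mem_gs.1 (hE he.1)
  have hcK : c ∈ K := by
    by_contra h
    exact he.2 (mem_gs.2 ⟨c, Finset.mem_sdiff.2 ⟨hc, h⟩, hc'⟩)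
  have h1 := hK c hcK
  have h2 : e ∈ FB (Sd k v) m := by
    rw [FB_Sd, mem_Bx]
    unfold gcell at hc'
    rw [mem_Bx] at hc'
    omega
  exact (hT e h2).1 he.1

/-- **NH for types.** All points `lv n`, `n ∈ s`, are connected to the wired arc, and the connection
of the point `lv n1` needs the labels of a set `B` near `lv n0`. -/
theorem nh_P (P : PType) {x y : ℤ → ℝ} (hx : StrictMono x) (hy : StrictMono y) (s : Finset ℕ)
    (hn : ∀ n ∈ s, FlatV P n) :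
    ∃ C c : ℝ, 0 < C ∧ 0 < c ∧ ∀ (R : ℕ → ℝ) (X Y : ℕ → ℤ → ℤ), App x y R X Y →
    ∀ᶠ j in atTop, ∀ n0 ∈ s, ∀ n1 < P.N, n1 ≠ n0 → ∀ m : ℤ, 1 ≤ m → (m : ℝ) ≤ c * R j →
    ∀ B ⊆ HB (Sd (P.side n0).2 (lv P (X j) (Y j) n0)) m,
      Pr (EL P (X j) (Y j)) (fun ω => (∀ n ∈ s, CT P (X j) (Y j) (lv P (X j) (Y j) n) ω) ∧
        CT P (X j) (Y j) (lv P (X j) (Y j) n1) ω ∧
        ¬ CT P (X j) (Y j) (lv P (X j) (Y j) n1) (ω \ B)) ≤
      C * ((m : ℝ) / R j) ^ (1 / 3 : ℝ) * (R j ^ (-(1 / 3) : ℝ)) ^ s.card := by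
  obtain ⟨c0, hc0, hc01, hs⟩ : ∃ c0 : ℝ, 0 < c0 ∧ c0 ≤ 1 ∧ ∀ n ∈ s, ∀ (R : ℕ → ℝ)
      (X Y : ℕ → ℤ → ℤ), Approx x y R X Y →
      ∀ᶠ j in atTop, ∀ r : ℤ, (r : ℝ) ≤ c0 * R j → Small (X j) (Y j) (P.vert n) r := by
    clear hn
    induction s using Finset.induction_on with
    | empty => exact ⟨1, one_pos, le_rfl, by simp⟩
    | insert a s ha ih =>
      obtain ⟨c1, h1, h1', h2⟩ := ih
      obtain ⟨c2, h3, h4⟩ := small_ev hx hy (P.vert a)
      refine ⟨min c1 c2, lt_min h1 h3, (min_le_left _ _).trans h1', ?_⟩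
      intro n hn R X Y hA
      rw [mem_insert] at hn
      rcases hn with rfl | hn
      · filter_upwards [h4 R X Y hA, hA.R_top.eventually_gt_atTop 0] with j hj hR r hr
        exact hj r (hr.trans (mul_le_mul_of_nonneg_right (min_le_right _ _) hR.le))
      · filter_upwards [h2 n hn R X Y hA, hA.R_top.eventually_gt_atTop 0] with j hj hR r hr
        exact hj r (hr.trans (mul_le_mul_of_nonneg_right (min_le_left _ _) hR.le))
  obtain ⟨C, hC, h⟩ := nh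
  refine ⟨C ^ (s.card + 1) * ((4 / c0) ^ (1 / 3 : ℝ)) ^ (s.card + 1), c0 / 4, by positivity,
    by positivity, ?_⟩
  intro R X Y hA
  have hall : ∀ᶠ j in atTop, ∀ n ∈ s, ∀ r : ℤ, (r : ℝ) ≤ c0 * R j →
      Small (X j) (Y j) (P.vert n) r := by
    rw [Filter.eventually_all_finset]
    exact fun n hn' => hs n hn' R X Y hA.app
  filter_upwards [hall, hA.mono, hA.app.R_top.eventually_ge_atTop (4 / c0)] with j e1 e2 e4
  rw [div_le_iff₀ hc0] at e4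
  have hR : 0 < R j := by
    by_contra hn
    have : R j * c0 ≤ 0 := mul_nonpos_of_nonpos_of_nonneg (not_lt.1 hn) hc0.le
    linarith
  intro n0 hn0 n1 hn1 hne m hm hmR B hB
  set r : ℤ := ⌊c0 * R j⌋ with hr
  have hr1 : (r : ℝ) ≤ c0 * R j := Int.floor_le _
  have hr2 : c0 * R j < r + 1 := Int.lt_floor_add_one _
  have hr4 : 4 ≤ r := by
    have : (4 : ℤ) ≤ ⌊c0 * R j⌋ := Int.le_floor.2 (by push_cast; linarith)
    exact this
  set l : ℤ := r / 2 with hl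
  have hl1 : 2 * l ≤ r := by omega
  have hl2 : r ≤ 2 * l + 1 := by omega
  have hl3 : c0 * R j / 4 ≤ l := by
    have h1 : (r : ℝ) ≤ 2 * l + 1 := by exact_mod_cast hl2
    linarith
  have hml : m ≤ l := by
    have h1 : (m : ℝ) ≤ l := by
      refine hmR.trans ?_
      rw [div_mul_eq_mul_div]
      exact hl3
    exact_mod_cast h1
  have hS : ∀ n ∈ s, Small (X j) (Y j) (P.vert n) r := fun n hn' => e1 n hn' _ hr1
  have hP : ∀ n ∈ s, n < P.N := fun n hn' => (hn n hn').2.1.trans P.hmN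
  have key := h s (fun n => lv P (X j) (Y j) n) (fun n => (P.side n).2) n0 hn0 m l hm hml
    (E := EL P (X j) (Y j)) (W := Pool.Agent.Q1.M5.WL P (X j) (Y j))
    (fun n hn' => (flat_EL e2.1 e2.2 (hn n hn') (by omega) (hS n hn')).1.mono_k (by omega))
    (fun a ha b hb hab => far_mono (by omega)
      (lv_far e2.1 e2.2 (hP a ha) (hP b hb) hab (hS a ha)))
    (TV P (X j) (Y j))
    (fun n hn' v hv => far_mono (by omega) (TV_far e2.1 e2.2 (hn n hn') (hS n hn') hv))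
    (lv P (X j) (Y j) n1)
    (far_mono (by omega) (lv_far e2.1 e2.2 (hP n0 hn0) hn1 (Ne.symm hne) (hS n0 hn0))) B hB
  refine le_trans key ?_
  have hl0 : (0 : ℝ) < l := by
    have : 1 ≤ l := by omega
    exact_mod_cast this
  have hm0 : (0 : ℝ) < m := by exact_mod_cast (by omega : 0 < m)
  have a1 : ((m : ℝ) / l) ^ (1 / 3 : ℝ) ≤ (4 / c0) ^ (1 / 3 : ℝ) * ((m : ℝ) / R j) ^ (1 / 3 : ℝ) := by
    rw [← Real.mul_rpow (by positivity) (by positivity)]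
    refine Real.rpow_le_rpow (by positivity) ?_ (by norm_num)
    rw [div_le_iff₀ hl0]
    calc (m : ℝ) = 4 / c0 * (m / R j) * (c0 * R j / 4) := by field_simp
      _ ≤ _ := mul_le_mul_of_nonneg_left hl3 (by positivity)
  have a2 : (l : ℝ) ^ (-(1 / 3) : ℝ) ≤ (4 / c0) ^ (1 / 3 : ℝ) * R j ^ (-(1 / 3) : ℝ) := by
    have e : (4 / c0) ^ (1 / 3 : ℝ) = (c0 / 4) ^ (-(1 / 3) : ℝ) := by
      rw [Real.rpow_neg (by positivity), ← Real.inv_rpow (by positivity), inv_div]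
    rw [e, ← Real.mul_rpow (by positivity) hR.le]
    refine Real.rpow_le_rpow_of_nonpos (by positivity) ?_ (by norm_num)
    linarith
  have b1 : 0 ≤ ((m : ℝ) / l) ^ (1 / 3 : ℝ) := by positivity
  have b2 : 0 ≤ (l : ℝ) ^ (-(1 / 3) : ℝ) := by positivity
  calc C ^ (s.card + 1) * ((m : ℝ) / l) ^ (1 / 3 : ℝ) * ((l : ℝ) ^ (-(1 / 3) : ℝ)) ^ s.card
      ≤ C ^ (s.card + 1) * ((4 / c0) ^ (1 / 3 : ℝ) * ((m : ℝ) / R j) ^ (1 / 3 : ℝ)) *
        ((4 / c0) ^ (1 / 3 : ℝ) * R j ^ (-(1 / 3) : ℝ)) ^ s.card := by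
          refine mul_le_mul (mul_le_mul_of_nonneg_left a1 (by positivity))
            (pow_le_pow_left₀ b2 a2 _) (by positivity) (by positivity)
    _ = _ := by
          rw [mul_pow, pow_succ ((4 / c0) ^ (1 / 3 : ℝ))]
          ring

/-- **NH for types, normalised.** -/
theorem nh_pz {pz : ℝ → ℝ} (hpz : StPz pz) (P : PType) {x y : ℤ → ℝ} (hx : StrictMono x)
    (hy : StrictMono y) (s : Finset ℕ) (hn : ∀ n ∈ s, FlatV P n) :
    ∃ C c : ℝ, 0 < C ∧ 0 < c ∧ ∀ (R : ℕ → ℝ) (X Y : ℕ → ℤ → ℤ), App x y R X Y →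
    ∀ᶠ j in atTop, ∀ n0 ∈ s, ∀ n1 ∈ s, n1 ≠ n0 → ∀ m : ℤ, 1 ≤ m → (m : ℝ) ≤ c * R j →
    ∀ B ⊆ HB (Sd (P.side n0).2 (lv P (X j) (Y j) n0)) m,
      Pr (EL P (X j) (Y j)) (fun ω => (∀ n ∈ s, CT P (X j) (Y j) (lv P (X j) (Y j) n) ω) ∧
        ¬ CT P (X j) (Y j) (lv P (X j) (Y j) n1) (ω \ B)) ≤
      C * ((m : ℝ) / R j) ^ (1 / 3 : ℝ) * pz (R j) ^ s.card := by
  obtain ⟨C, c, hC, hc, h⟩ := nh_P P hx hy s hn
  obtain ⟨-, a, A, ha, hA', hz⟩ := hpz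
  refine ⟨C * (1 / a) ^ s.card, c, by positivity, hc, ?_⟩
  intro R X Y hA
  filter_upwards [h R X Y hA, hA.app.R_top.eventually_ge_atTop 1] with j h1 h2
  intro n0 hn0 n1 hn1 hne m hm hmR B hB
  have hR : 0 < R j := by linarith
  refine (Pr_mono ?_).trans ((h1 n0 hn0 n1 ((hn n1 hn1).2.1.trans P.hmN) hne m hm hmR B hB).trans ?_)
  · rintro ω _ ⟨g1, g2⟩
    exact ⟨g1, g1 n1 hn1, g2⟩
  · have h3 : (R j ^ (-(1 / 3) : ℝ)) ^ s.card ≤ (1 / a) ^ s.card * pz (R j) ^ s.card := by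
      rw [← mul_pow]
      refine pow_le_pow_left₀ (by positivity) ?_ _
      have h4 := (hz (R j) h2).1
      calc R j ^ (-(1 / 3) : ℝ) = 1 / a * (a * R j ^ (-(1 / 3) : ℝ)) := by field_simp
        _ ≤ _ := mul_le_mul_of_nonneg_left h4 (by positivity)
    calc C * ((m : ℝ) / R j) ^ (1 / 3 : ℝ) * (R j ^ (-(1 / 3) : ℝ)) ^ s.card
        ≤ C * ((m : ℝ) / R j) ^ (1 / 3 : ℝ) * ((1 / a) ^ s.card * pz (R j) ^ s.card) :=
          mul_le_mul_of_nonneg_left h3 (by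
            have : (0 : ℝ) < m := by exact_mod_cast (by omega : 0 < m)
            positivity)
      _ = _ := by ring

end Pool.Agent.H49.Q1
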