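import Mathlib
import Pool.Agent.H49.Q1.Pivot
import Pool.Agent.H65.Dom.Extremal

set_option autoImplicit false
open Finset

/-! If the dual cluster of the left face of the root edge (= the leftmost open path from `x` to the
target) touches a half box which is attached on the right, then there are two disjoint open arms in
the half annulus around the half box. -/

namespace Pool.Agent.H49.Q1

open Pool.Agent.H75.Perc Pool.Agent.H75.TwoArm Pool.Agent.H75.Four Pool.Agent.H99.NC Pool.Agent.H49.Perc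
  Pool.Agent.H65.Dom

/-! ### Rectangles of closed labels -/

/-- the faces of a label of a rectangle: one of them is an inner face of the rectangle -/
lemma face_inner {a b c d : ℤ} (hab : a < b) (hcd : c < d) {l : ℤ × ℤ} (hl : l ∈ Bx a b c d) :
    inB (a + 1) b (c + 1) d (fi (zu l)) ∨ inB (a + 1) b (c + 1) d (fi (zv l)) := by
  rw [mem_Bx] at hl
  have hodd := hl.2.2
  have h := faces_zu hodd
  have h1 := unit_cases h.1
  have e1 := congrArg Prod.fst h.2
  have e2 := congrArg Prod.snd h.2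
  simp only [Prod.fst_add, Prod.snd_add] at e1 e2
  unfold inB
  omega

/-- If all labels of a rectangle are closed, all faces of its labels are joined. -/
lemma rect_faces {a b c d : ℤ} (hab : a < b) (hcd : c < d) {B η : Finset (ℤ × ℤ)}
    (hB : Bx a b c d ⊆ B) (hη : ∀ l ∈ Bx a b c d, l ∉ η) {l l' g g' : ℤ × ℤ}
    (hl : l ∈ Bx a b c d) (hl' : l' ∈ Bx a b c d) (hg : g = fi (zu l) ∨ g = fi (zv l))
    (hg' : g' = fi (zu l') ∨ g' = fi (zv l')) : Co (du B η) g g' := by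
  have hinner : Bx (a + 1) b (c + 1) d ⊆ du B η := by
    intro e he
    rw [mem_du_iff']
    have h1 : e - (1, 1) ∈ Bx a b c d := by
      rw [mem_Bx] at he ⊢
      simp only [Prod.fst_sub, Prod.snd_sub]
      omega
    exact ⟨hB h1, hη _ h1⟩
  have key : ∀ l ∈ Bx a b c d, ∀ g, (g = fi (zu l) ∨ g = fi (zv l)) →
      ∃ f, inB (a + 1) b (c + 1) d f ∧ Co (du B η) g f := by
    intro l hl g hg
    have h2 : Co (du B η) (fi (zu l)) (fi (zv l)) :=
      co_faces (mem_Bx.1 hl).2.2 (hB hl) (hη l hl)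
    rcases face_inner hab hcd hl with h | h
    · refine ⟨_, h, ?_⟩
      rcases hg with rfl | rfl
      · exact Co.refl _ _
      · exact h2.symm
    · refine ⟨_, h, ?_⟩
      rcases hg with rfl | rfl
      · exact h2
      · exact Co.refl _ _
  obtain ⟨f, hf, h1⟩ := key l hl g hg
  obtain ⟨f', hf', h1'⟩ := key l' hl' g' hg'
  exact (h1.trans ((Bx_conn hf hf').mono hinner)).trans h1'.symm

/-- the half box is a rectangle -/
lemma HB_rect (k : ℤ) (x : ℤ × ℤ) {r : ℤ} (hr : 1 ≤ r) :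
    ∃ a b c d : ℤ, a < b ∧ c < d ∧ HB (Sd k x) r = Bx a b c d := by
  rcases Sd_cases k x with ⟨-, h⟩ | ⟨-, h⟩ | ⟨-, h⟩ | ⟨-, h⟩ <;> rw [h]
  · exact ⟨_, _, _, _, by omega, by omega, HB_B x r⟩
  · exact ⟨_, _, _, _, by omega, by omega, HB_R x r⟩
  · exact ⟨_, _, _, _, by omega, by omega, HB_T x r⟩
  · exact ⟨_, _, _, _, by omega, by omega, HB_L x r⟩

/-- **Right-attached half boxes**: it is enough that one face of one label of the half box is joined
to the right face by labels outside of the environment. -/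
lemma HB_att {k : ℤ} {x : ℤ × ℤ} {r : ℤ} (hr : 1 ≤ r) {M : ℤ} {Emax : Finset (ℤ × ℤ)}
    (hA : HB (Sd k x) r ⊆ H75.TwoArm.BB M) {fR : ℤ × ℤ} {l0 g0 : ℤ × ℤ}
    (hl0 : l0 ∈ HB (Sd k x) r) (hg0 : g0 = fi (zu l0) ∨ g0 = fi (zv l0))
    (hatt : Co (du (H75.TwoArm.BB M) Emax) g0 fR) :
    ∀ l ∈ HB (Sd k x) r,
      Co (du (H75.TwoArm.BB M) (Emax \ HB (Sd k x) r)) (fi (zu l)) fR := by
  intro l hl
  obtain ⟨a, b, c, d, hab, hcd, he⟩ := HB_rect k x hr
  rw [he] at hA hl0 hl ⊢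
  have h1 : Co (du (H75.TwoArm.BB M) (Emax \ Bx a b c d)) (fi (zu l)) g0 :=
    rect_faces hab hcd hA (fun l hl h => (mem_sdiff.1 h).2 hl) hl hl0 (Or.inl rfl) hg0
  exact h1.trans (hatt.mono (du_anti sdiff_subset))

/-! ### The theorem -/

/-- the connection of the ends of the root edge as an event `CJ` -/
lemma CJ_root {E W ω : Finset (ℤ × ℤ)} {e0 : ℤ × ℤ} (h0E : e0 ∉ E) (hω : ω ⊆ E) :
    CJ (W.erase e0) (fun v => v = ev e0) (eu e0) ω ↔ Co ((ω ∪ W).erase e0) (eu e0) (ev e0) := by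
  have h1 : ω ∪ W.erase e0 = (ω ∪ W).erase e0 := by
    ext e
    simp only [mem_union, mem_erase]
    constructor
    · rintro (h | h)
      · exact ⟨fun he => h0E (he ▸ hω h), Or.inl h⟩
      · exact ⟨h.1, Or.inr h.2⟩
    · rintro ⟨h, h' | h'⟩
      · exact Or.inl h'
      · exact Or.inr ⟨h, h'⟩
  unfold CJ
  rw [h1]
  constructor
  · rintro ⟨v, rfl, hc⟩
    exact hc
  · intro hc
    exact ⟨_, rfl, hc⟩

/-- On the crossing event, if the dual cluster of the left face touches the right-attached set `A`,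
then `A` is pivotal for the connection of the ends of the root edge. -/
theorem touch_piv {M : ℤ} {E W ω A : Finset (ℤ × ℤ)} {e0 fL fR : ℤ × ℤ}
    (he : (e0.1 + e0.2) % 2 = 1) (hEM : E ⊆ H75.TwoArm.BB (M - 1))
    (hWM : W ⊆ H75.TwoArm.BB (M - 1)) (h0 : e0 ∈ W) (h0E : e0 ∉ E) (hf : Fc e0 fL fR)
    (hA : A ⊆ H75.TwoArm.BB M) (hWA : Disjoint W A)
    (hatt : ∀ l ∈ A, Co (du (H75.TwoArm.BB M) ((E ∪ W) \ A)) (fi (zu l)) fR) (hω : ω ⊆ E)
    (hc : ¬ Ph M (ω ∪ W) (fun g => g = fL) fR)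
    (ht : ∃ l ∈ A, Ph M (ω ∪ W) (fun g => g = fL) (fi (zu l)) ∨
      Ph M (ω ∪ W) (fun g => g = fL) (fi (zv l))) :
    CJ (W.erase e0) (fun v => v = ev e0) (eu e0) ω ∧
      ¬ CJ (W.erase e0) (fun v => v = ev e0) (eu e0) (ω \ A) := by
  have hη : ω ∪ W ⊆ H75.TwoArm.BB (M - 1) := union_subset (hω.trans hEM) hWM
  refine ⟨(CJ_root h0E hω).2 ((conn_iff he (hWM h0) hη (mem_union_right _ h0) hf).2 hc), ?_⟩
  intro hcon
  have h1 := (CJ_root h0E (sdiff_subset.trans hω)).1 hcon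
  have h2 : (ω \ A) ∪ W = (ω ∪ W) \ A := by
    ext e
    simp only [mem_union, mem_sdiff]
    constructor
    · rintro (h | h)
      · exact ⟨Or.inl h.1, h.2⟩
      · exact ⟨Or.inr h, fun h' => (disjoint_left.1 hWA) h h'⟩
    · rintro ⟨h | h, h'⟩
      · exact Or.inl ⟨h, h'⟩
      · exact Or.inr h
  rw [h2] at h1
  have h3 := (conn_iff he (hWM h0) (sdiff_subset.trans hη) (mem_sdiff.2 ⟨mem_union_right _ h0,
    fun h => (disjoint_left.1 hWA) h0 h⟩) hf).1 h1
  have h4 := (restr (union_subset_union hω (subset_refl W)) hA hatt).1 h3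
  obtain ⟨l, hl, hl'⟩ := ht
  rcases hl' with h5 | h5
  · exact (h4.2 l hl).1 h5
  · exact (h4.2 l hl).2 h5

/-- **C1'', deterministic part.** The leftmost path touches a right-attached half box of radius `m`:
two disjoint open arms in the half annulus between the radii `m` and `l`. -/
theorem touch_arms {M : ℤ} {E W ω : Finset (ℤ × ℤ)} {e0 fL fR : ℤ × ℤ}
    (he : (e0.1 + e0.2) % 2 = 1) (hEM : E ⊆ H75.TwoArm.BB (M - 1))
    (hWM : W ⊆ H75.TwoArm.BB (M - 1)) (h0 : e0 ∈ W) (h0E : e0 ∉ E) (hf : Fc e0 fL fR)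
    {S : Sy} {m l : ℤ} (hm : 0 ≤ m) (hml : m ≤ l) (hT : Thin S E W l)
    (hA : HB S m ⊆ H75.TwoArm.BB M)
    (hatt : ∀ a ∈ HB S m, Co (du (H75.TwoArm.BB M) ((E ∪ W) \ HB S m)) (fi (zu a)) fR)
    (hx : ¬ VI S l (eu e0)) (ht0 : ¬ VI S l (ev e0)) (hω : ω ⊆ E)
    (hc : ¬ Ph M (ω ∪ W) (fun g => g = fL) fR)
    (ht : ∃ a ∈ HB S m, Ph M (ω ∪ W) (fun g => g = fL) (fi (zu a)) ∨
      Ph M (ω ∪ W) (fun g => g = fL) (fi (zv a))) :
    Arms 2 (AA S m l) (ω ∩ (HB S l \ HB S m)) := by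
  have hl : 0 ≤ l := hm.trans hml
  have hWA : Disjoint W (HB S m) := by
    rw [disjoint_left]
    intro e he he'
    exact (hT e (HB_sub_FB S hl (HB_mono S hml he'))).2 he
  obtain ⟨h1, h2⟩ := touch_piv he hEM hWM h0 h0E hf hA hWA hatt hω hc ht
  exact piv_arms hm hml (hT.anti (subset_refl _) (erase_subset _ _)) (J := fun v => v = ev e0)
    (fun v (hv : v = ev e0) => by rw [hv]; exact ht0) hx hω h1 h2

end Pool.Agent.H49.Q1
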